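import Pool.Agent.Run7.h413.MX.Arith
import Pool.Agent.Run7.h413.MX.Conv
import Pool.Agent.Y638.RF.Xor

set_option autoImplicit false

/-! # Products `u_iᵀ M v_i`, Boolean and over `ZMod 2` -/

namespace Run7.h413.MX.OMv

open Finset Pool.Agent.TH697.Form Pool.Agent.TH697.Row
open Pool.Agent.Y638.RF (Asks)

variable {n c w : ℕ}

/-- The pairs of vectors. -/
def pairs (n : ℕ) : Finset (Option (Fin n)) := (univ : Finset (Fin n)).map Function.Embedding.some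

/-- the arithmetic -/
theorem arith {n c w l L0 s : ℝ} (hn : 32 ≤ n) (hc : 1 ≤ c) (hw : 1 ≤ w)
    (hl0 : 4 ≤ l) (hL0 : L0 ≤ 3 * l) (hs : 0 ≤ s)
    (h : n * ((49 / 600 - 0) * n ^ 2 - 1) ≤
      (1 + (15 + 8 * L0) * (13 * l) + 2 * (w - 1) * c) * s) :
    n ^ 3 ≤ 5000 * (w * c + l ^ 2) * s := by
  have h0 : 1024 ≤ n ^ 2 := by nlinarith
  have h1 : 2 / 25 * n ^ 2 ≤ (49 / 600 - 0) * n ^ 2 - 1 := by linarith
  have h2 : n * (2 / 25 * n ^ 2) ≤ n * ((49 / 600 - 0) * n ^ 2 - 1) :=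
    mul_le_mul_of_nonneg_left h1 (by positivity)
  have hf := factor_le (l := l) (L0 := L0) (k := 3) (p := 13) (W := 2 * (w - 1) * c)
    (by linarith) (by norm_num) (by norm_num) hL0
  have h3 : 1 + (15 + 8 * L0) * (13 * l) + 2 * (w - 1) * c ≤ 400 * (w * c + l ^ 2) := by
    have h9 : 0 ≤ w * c := by positivity
    have h10 : (w - 1) * c ≤ w * c := by nlinarith
    have h11 : 0 ≤ l * l := by positivity
    have e1 : 400 * (w * c + l ^ 2) = 400 * (w * c) + 400 * (l * l) := by ring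
    rw [e1]
    linarith
  have h4 := mul_le_mul_of_nonneg_right h3 hs
  have e1 : n * (2 / 25 * n ^ 2) = 2 / 25 * n ^ 3 := by ring
  have h6 : 0 ≤ (w * c + l ^ 2) * s := by
    have : 0 ≤ w * c := by positivity
    positivity
  rw [e1] at h2
  nlinarith

theorem bound_of {D : Option (Fin n) → Type} (f : (∀ i, D i) → Bool)
    (hasks : ∀ i : Fin n, Asks (Fin n × Fin n) (n ^ 2) 0 (fun _ => True) f (some i))
    (hn : 32 ≤ n) (hc : 1 ≤ c) (hw : 1 ≤ w) {Ω : Type} [Fintype Ω]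
    (μ : Ω → ℝ) (hμ : IsProb μ) (s : ℕ) (C : Ω → Circuit (Option (Fin n)) D w (2 ^ c))
    (hs : ∀ ω, (C ω).circ.cost (pairs n) ≤ s)
    (hF : ApproximatesOn μ (fun ω => (C ω).eval) (fun _ => True) f) :
    (n : ℝ) ^ 3 ≤ 5000 * (w * c + Real.logb 2 n ^ 2) * s := by
  classical
  have hw' : (1 : ℝ) ≤ w := by exact_mod_cast hw
  have hc' : (1 : ℝ) ≤ c := by exact_mod_cast hc
  have hs0 : (0 : ℝ) ≤ s := Nat.cast_nonneg s
  have hn' : (32 : ℝ) ≤ n := by exact_mod_cast hn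
  have hl1 : (4 : ℝ) ≤ Real.logb 2 n := by
    have h1 : 2 ^ 4 ≤ n := by omega
    rw [Real.le_logb_iff_rpow_le (by norm_num) (by exact_mod_cast (by omega : 0 < n))]
    exact_mod_cast h1
  by_cases hsn : n ^ 3 ≤ s
  · have h1 : (n : ℝ) ^ 3 ≤ s := by exact_mod_cast hsn
    have h2 : (1 : ℝ) ≤ w * c := by nlinarith
    have h3 : (1 : ℝ) ≤ 5000 * (w * c + Real.logb 2 n ^ 2) := by nlinarith
    nlinarith
  have hM : 64 * n ^ 2 * s ^ 3 + 2 + s ≤ n ^ 13 := by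
    have h1 : s ≤ n ^ 3 := by omega
    have h2 : 64 * n ^ 2 * s ^ 3 ≤ 64 * n ^ 2 * (n ^ 3) ^ 3 :=
      Nat.mul_le_mul_left _ (Nat.pow_le_pow_left h1 3)
    have h3 : 64 * n ^ 2 * (n ^ 3) ^ 3 = 64 * n ^ 11 := by ring
    have h4 : n ^ 3 ≤ n ^ 11 := Nat.pow_le_pow_right (by omega) (by norm_num)
    have h5 : 1024 * n ^ 11 ≤ n ^ 13 := by
      calc 1024 * n ^ 11 ≤ n ^ 2 * n ^ 11 := Nat.mul_le_mul_right _ (by nlinarith)
        _ = n ^ 13 := by ring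
    have h6 : 1 ≤ n ^ 11 := Nat.one_le_pow _ _ (by omega)
    omega
  have h := circuit_lower μ hμ s C (fun _ => True) f hF Nat.one_le_two_pow hw (n ^ 2)
    (n ^ 13) hM 0 (pairs n) hs (T := Fin n × Fin n) (by
      intro a ha
      unfold pairs at ha
      rw [mem_map] at ha
      obtain ⟨i, -, rfl⟩ := ha
      exact hasks i)
  unfold pairs at h
  rw [card_map, card_univ, Fintype.card_fin, Pool.Agent.TH457.Ary.OuMv.card_T] at h
  push_cast at h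
  rw [Pool.Agent.TH457.Ary.OuMv.logb_two_pow', Real.logb_pow] at h
  push_cast at h
  exact arith hn' hc' hw' hl1 (by exact_mod_cast log_le (k := 3) (by omega) (by omega)) hs0 h

open Pool.Agent.Y638.RF.Xor (Item product) in
/-- Products over `ZMod 2`. -/
theorem xor_bound (hn : 32 ≤ n) (hc : 1 ≤ c) (hw : 1 ≤ w) {Ω : Type} [Fintype Ω]
    (μ : Ω → ℝ) (hμ : IsProb μ) (s : ℕ) (C : Ω → Circuit (Option (Fin n)) (Item n) w (2 ^ c))
    (hs : ∀ ω, (C ω).circ.cost (pairs n) ≤ s)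
    (hF : ApproximatesOn μ (fun ω => (C ω).eval) (fun _ => True) (product n)) :
    (n : ℝ) ^ 3 ≤ 5000 * (w * c + Real.logb 2 n ^ 2) * s :=
  bound_of _ (fun i => Pool.Agent.Y638.RF.Xor.asks i) hn hc hw μ hμ s C hs hF

open Pool.Agent.TH697.Form.OuMv (Item ouMv) in
/-- Boolean products. -/
theorem bool_bound (hn : 32 ≤ n) (hc : 1 ≤ c) (hw : 1 ≤ w) {Ω : Type} [Fintype Ω]
    (μ : Ω → ℝ) (hμ : IsProb μ) (s : ℕ) (C : Ω → Circuit (Option (Fin n)) (Item n n) w (2 ^ c))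
    (hs : ∀ ω, (C ω).circ.cost (pairs n) ≤ s)
    (hF : ApproximatesOn μ (fun ω => (C ω).eval) (fun _ => True) (ouMv n n)) :
    (n : ℝ) ^ 3 ≤ 5000 * (w * c + Real.logb 2 n ^ 2) * s :=
  bound_of _ (fun i => Pool.Agent.Y638.RF.OuMv.asks i) hn hc hw μ hμ s C hs hF

open Pool.Agent.Y638.RF.Xor (Item product) in
/-- multiplication by words of length `c` -/
theorem xor_upper (n : ℕ) (hc : 1 ≤ c) : ∃ C : Circuit (Option (Fin n)) (Item n) 2 (2 ^ (c + 1)),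
    C.bits = 0 ∧ C.circ.cost (pairs n) ≤ 4 * n ^ 2 * (n / c + 1) + 2 ∧
      ∀ x, C.eval x = product n x := by
  obtain ⟨F, h1, h2⟩ := Pool.Agent.Y638.RF.Xor.upper (n := n) hc
  obtain ⟨B, h3, h4⟩ := Pool.Agent.Y638.RF.exists_program F (2 * n ^ 2 * (n / c + 1) + 1)
    (by omega)
  obtain ⟨C, h5, h6, h7⟩ := exists_circuit (by norm_num) B (pairs n)
  refine ⟨C, h5, h6.trans (le_of_eq (by ring)), fun x => ?_⟩
  rw [h7, h4, h2]

open Pool.Agent.TH697.Form.OuMv (Item ouMv) in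
/-- multiplication by words of length `c` -/
theorem bool_upper (n : ℕ) (hc : 1 ≤ c) :
    ∃ C : Circuit (Option (Fin n)) (Item n n) 2 (2 ^ (c + 1)),
    C.bits = 0 ∧ C.circ.cost (pairs n) ≤ 2 * n ^ 2 * (n / c + 1) + 2 ∧
      ∀ x, C.eval x = ouMv n n x := by
  obtain ⟨F, h1, h2⟩ := Pool.Agent.Y638.RF.OuMv.upper (n := n) hc
  obtain ⟨B, h3, h4⟩ := Pool.Agent.Y638.RF.exists_program F (n ^ 2 * (n / c + 1) + 1)
    (by omega)
  obtain ⟨C, h5, h6, h7⟩ := exists_circuit (by norm_num) B (pairs n)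
  refine ⟨C, h5, h6.trans (le_of_eq (by ring)), fun x => ?_⟩
  rw [h7, h4, h2]

end Run7.h413.MX.OMv
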