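import Pool.Agent.Run7.h413.MX.Arith
import Pool.Agent.R617.RFS.Sum

set_option autoImplicit false

/-! # 3SUM -/

namespace Run7.h413.MX.ThreeSum

open Finset Pool.Agent.TH697.Form Pool.Agent.TH697.Row Pool.Agent.TH697.Form.ThreeSum
open Pool.Agent.TH457.Ary.ZeroSum Pool.Agent.TH457.Ary.ThreeSum Pool.Agent.Y638.RF

variable {n c w : ℕ}

/-- The first `n` numbers. -/
def numbers (n : ℕ) : Finset (Option (Fin n)) :=
  (univ : Finset (Fin n)).map Function.Embedding.some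

/-- the arithmetic -/
theorem arith {n g c w N L L0 l s : ℝ} (hn : 1000 ≤ n) (hg : 8 ≤ g) (hc : 1 ≤ c) (hw : 1 ≤ w)
    (hN : n * g / 7 ≤ N) (hl0 : 8 ≤ l) (hl : l ≤ 9 / 8 * g) (hL : L ≤ 4 / 3 * c * g)
    (hL0 : L0 ≤ 2 * l) (hs : 0 ≤ s)
    (h : n * ((49 / 600 - 0) * N - 1) ≤
      (1 + (15 + 8 * L0) * (9 * l) + 2 * (w - 1) * L) * s) :
    n ^ 2 ≤ 20000 * (w * c + l) * s := by
  have h0 : 1000 * g ≤ n * g := mul_le_mul_of_nonneg_right hn (by linarith)
  have h1 : n * g / 90 ≤ (49 / 600 - 0) * N - 1 := by linarith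
  have h2 : n * (n * g / 90) ≤ n * ((49 / 600 - 0) * N - 1) :=
    mul_le_mul_of_nonneg_left h1 (by linarith)
  have hf := factor_le (l := l) (L0 := L0) (k := 2) (p := 9) (W := 2 * (w - 1) * L) (by linarith)
    (by norm_num) (by norm_num) hL0
  have h3 : 1 + (15 + 8 * L0) * (9 * l) + 2 * (w - 1) * L ≤ 220 * (w * c + l) * g := by
    have h4 : (w - 1) * L ≤ (w - 1) * (4 / 3 * c * g) := mul_le_mul_of_nonneg_left hL (by linarith)
    have h6 : l * l ≤ l * (9 / 8 * g) := mul_le_mul_of_nonneg_left hl (by linarith)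
    have h8 : 0 ≤ c * g := by positivity
    have h9 : 0 ≤ w * (c * g) := by positivity
    have h11 : 0 ≤ l * g := by positivity
    have h10 : (w - 1) * (4 / 3 * c * g) ≤ 4 / 3 * (w * (c * g)) := by nlinarith
    have e1 : 220 * (w * c + l) * g = 220 * (w * (c * g)) + 220 * (l * g) := by ring
    rw [e1]
    linarith
  have h4 := mul_le_mul_of_nonneg_right h3 hs
  have h5 : g * n ^ 2 ≤ g * (20000 * (w * c + l) * s) := by
    have e1 : n * (n * g / 90) = g * n ^ 2 / 90 := by ring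
    have e2 : 220 * (w * c + l) * g * s = g * (220 * (w * c + l) * s) := by ring
    rw [e1] at h2
    rw [e2] at h4
    have h6 : 0 ≤ g * ((w * c + l) * s) := by
      have : 0 ≤ w * c := by positivity
      positivity
    nlinarith
  exact le_of_mul_le_mul_left h5 (by linarith)

theorem bound (hn : 1000 ≤ n) (hc : 1 ≤ c) (hw : 1 ≤ w)
    {Ω : Type} [Fintype Ω] (μ : Ω → ℝ) (hμ : IsProb μ) (s : ℕ)
    (C : Ω → Circuit (Option (Fin n)) (Item n n) w ((2 * n) ^ c))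
    (hs : ∀ ω, (C ω).circ.cost (numbers n) ≤ s)
    (hF : ApproximatesOn μ (fun ω => (C ω).eval) (Valid n n) (threeSum n n)) :
    (n : ℝ) ^ 2 ≤ 20000 * (w * c + Real.logb 2 n) * s := by
  classical
  have hw' : (1 : ℝ) ≤ w := by exact_mod_cast hw
  have hc' : (1 : ℝ) ≤ c := by exact_mod_cast hc
  have hs0 : (0 : ℝ) ≤ s := Nat.cast_nonneg s
  obtain ⟨b, hb, hL, hb2⟩ := params (n := n) (by omega)
  have hl0 : (8 : ℝ) ≤ Real.logb 2 n := by
    have h1 : 2 ^ 8 ≤ n := by omega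
    rw [Real.le_logb_iff_rpow_le (by norm_num) (by exact_mod_cast (by omega : 0 < n))]
    exact_mod_cast h1
  by_cases hsn : n ^ 2 ≤ s
  · have h1 : (n : ℝ) ^ 2 ≤ s := by exact_mod_cast hsn
    have h2 : (1 : ℝ) ≤ w * c := by nlinarith
    have h3 : (1 : ℝ) ≤ 20000 * (w * c + Real.logb 2 n) := by linarith
    nlinarith
  have hM : 64 * n ^ 2 * s ^ 3 + 2 + s ≤ n ^ 9 := by
    have h1 : s ≤ n ^ 2 := by omega
    have h2 : 64 * n ^ 2 * s ^ 3 ≤ 64 * n ^ 2 * (n ^ 2) ^ 3 :=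
      Nat.mul_le_mul_left _ (Nat.pow_le_pow_left h1 3)
    have h3 : 64 * n ^ 2 * (n ^ 2) ^ 3 = 64 * n ^ 8 := by ring
    have h4 : n ^ 2 ≤ n ^ 8 := Nat.pow_le_pow_right (by omega) (by norm_num)
    have h5 : 1000 * n ^ 8 ≤ n ^ 9 := by
      calc 1000 * n ^ 8 ≤ n * n ^ 8 := Nat.mul_le_mul_right _ hn
        _ = n ^ 9 := by ring
    have h6 : 1 ≤ n ^ 8 := Nat.one_le_pow _ _ (by omega)
    omega
  have h := circuit_lower μ hμ s C (Valid n n) (threeSum n n) hF
    (Nat.one_le_pow _ _ (by omega)) hw (n ^ 2) (n ^ 9) hM 0 (numbers n) hs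
    (T := Fin (n / 2) × Fin b) (by
      intro a ha
      unfold numbers at ha
      rw [mem_map] at ha
      obtain ⟨i, -, rfl⟩ := ha
      exact Pool.Agent.R617.RFS.asks hb (by omega) i)
  unfold numbers at h
  rw [card_map, card_univ, Fintype.card_fin, Nat.cast_pow n 9] at h
  rw [Real.logb_pow] at h
  push_cast at h
  refine arith (l := Real.logb 2 n) (L := Real.logb 2 (((2 * n) ^ c : ℕ) : ℝ))
    (L0 := (Nat.log 2 s : ℝ))
    (g := Nat.log 2 n) (N := ((Fintype.card (Fin (n / 2) × Fin b) : ℕ) : ℝ))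
    (by exact_mod_cast hn) (by exact_mod_cast hL) hc' hw' (card_T (by omega) hb2)
    hl0 ?_ (logb_q (by omega) hL) (by exact_mod_cast log_le (k := 2) (by omega) (by omega)) hs0 ?_
  · have h1 := logb_n (n := n) (by omega)
    have hL' : (8 : ℝ) ≤ Nat.log 2 n := by exact_mod_cast hL
    linarith
  · push_cast
    exact h

end Run7.h413.MX.ThreeSum
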