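import Pool.Agent.Run7.h413.MX.Arith
import Pool.Agent.Run7.h413.MX.Conv
import Pool.Agent.R617.RFE.ET

set_option autoImplicit false

/-! # Triangles of weight zero -/

namespace Run7.h413.MX.ExactTri

open Finset Pool.Agent.TH697.Row
open Pool.Agent.TH697.Form (IsProb)
open Pool.Agent.Y638.RF.ZT
open Pool.Agent.R617.RFE (logb_n)

variable {n c w : ℕ}

/-- The edges between the first two parts. -/
def edges (n : ℕ) : Finset (Fin 3 × Fin n × Fin n) := univ.filter (fun e => e.1 = 0)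

theorem edges_eq : edges n = first n := by
  ext e
  unfold edges first
  rw [mem_filter, mem_map]
  constructor
  · rintro ⟨-, h⟩
    exact ⟨e.2, mem_univ _, Prod.ext h.symm rfl⟩
  · rintro ⟨p, -, rfl⟩
    exact ⟨mem_univ _, rfl⟩

/-- the arithmetic -/
theorem arith {n c w l L0 s : ℝ} (hn : 2048 ≤ n) (hc : 1 ≤ c) (hw : 1 ≤ w)
    (hl0 : 4 ≤ l) (hL0 : L0 ≤ 3 * l) (hs : 0 ≤ s)
    (h : n ^ 2 * ((49 / 600 - 0) * n - 1) ≤
      (1 + (15 + 8 * L0) * (11 * l) + 2 * (w - 1) * (c * l)) * s) :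
    n ^ 3 ≤ 4000 * (w * c + l) * l * s := by
  have h1 : 2 / 25 * n ≤ (49 / 600 - 0) * n - 1 := by linarith
  have h2 : n ^ 2 * (2 / 25 * n) ≤ n ^ 2 * ((49 / 600 - 0) * n - 1) :=
    mul_le_mul_of_nonneg_left h1 (by positivity)
  have hf := factor_le (l := l) (L0 := L0) (k := 3) (p := 11) (W := 2 * (w - 1) * (c * l))
    (by linarith) (by norm_num) (by norm_num) hL0
  have h3 : 1 + (15 + 8 * L0) * (11 * l) + 2 * (w - 1) * (c * l) ≤
      310 * (w * c + l) * l := by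
    have h8 : 0 ≤ c * l := by positivity
    have h9 : 0 ≤ w * (c * l) := by positivity
    have h10 : (w - 1) * (c * l) ≤ w * (c * l) := by nlinarith
    have h11 : 0 ≤ l * l := by positivity
    have e1 : 310 * (w * c + l) * l = 310 * (w * (c * l)) + 310 * (l * l) := by ring
    rw [e1]
    linarith
  have h4 := mul_le_mul_of_nonneg_right h3 hs
  have e1 : n ^ 2 * (2 / 25 * n) = 2 / 25 * n ^ 3 := by ring
  have h6 : 0 ≤ (w * c + l) * l * s := by
    have : 0 ≤ w * c := by positivity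
    positivity
  rw [e1] at h2
  nlinarith

theorem bound (hn : 2048 ≤ n) (hc : 1 ≤ c) (hw : 1 ≤ w)
    {Ω : Type} [Fintype Ω] (μ : Ω → ℝ) (hμ : IsProb μ) (s : ℕ)
    (C : Ω → Circuit (Fin 3 × Fin n × Fin n) (fun _ => ℤ) w (n ^ c))
    (hs : ∀ ω, (C ω).circ.cost (edges n) ≤ s)
    (hC : ApproximatesOn μ (fun ω => (C ω).eval) InRange zeroTri) :
    (n : ℝ) ^ 3 ≤ 4000 * (w * c + Real.logb 2 n) * Real.logb 2 n * s := by
  classical
  have hw' : (1 : ℝ) ≤ w := by exact_mod_cast hw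
  have hc' : (1 : ℝ) ≤ c := by exact_mod_cast hc
  have hs0 : (0 : ℝ) ≤ s := Nat.cast_nonneg s
  have hl1 : (4 : ℝ) ≤ Real.logb 2 n := by
    have h1 : 2 ^ 4 ≤ n := by omega
    rw [Real.le_logb_iff_rpow_le (by norm_num) (by exact_mod_cast (by omega : 0 < n))]
    exact_mod_cast h1
  by_cases hsn : n ^ 3 ≤ s
  · have h1 : (n : ℝ) ^ 3 ≤ s := by exact_mod_cast hsn
    have h2 : (1 : ℝ) ≤ w * c := by nlinarith
    have h3 : (1 : ℝ) ≤ 4000 * (w * c + Real.logb 2 n) := by linarith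
    have h4 : (1 : ℝ) ≤ 4000 * (w * c + Real.logb 2 n) * Real.logb 2 n := by nlinarith
    nlinarith
  have hM : 64 * n * s ^ 3 + 2 + s ≤ n ^ 11 := by
    have h1 : s ≤ n ^ 3 := by omega
    have h2 : 64 * n * s ^ 3 ≤ 64 * n * (n ^ 3) ^ 3 :=
      Nat.mul_le_mul_left _ (Nat.pow_le_pow_left h1 3)
    have h3 : 64 * n * (n ^ 3) ^ 3 = 64 * n ^ 10 := by ring
    have h4 : n ^ 3 ≤ n ^ 10 := Nat.pow_le_pow_right (by omega) (by norm_num)
    have h5 : 2048 * n ^ 10 ≤ n ^ 11 := by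
      calc 2048 * n ^ 10 ≤ n * n ^ 10 := Nat.mul_le_mul_right _ hn
        _ = n ^ 11 := by ring
    have h6 : 1 ≤ n ^ 10 := Nat.one_le_pow _ _ (by omega)
    omega
  have h := circuit_lower (D := fun _ : Fin 3 × Fin n × Fin n => ℤ) μ hμ s C InRange zeroTri hC
    (Nat.one_le_pow _ _ (by omega)) hw n (n ^ 11) hM 0 (edges n) hs (T := Fin n) (by
      rw [edges_eq]
      exact asks_first)
  rw [edges_eq, card_first, Fintype.card_fin] at h
  push_cast at h
  simp only [Real.logb_pow] at h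
  push_cast at h
  exact arith (by exact_mod_cast hn) hc' hw' hl1
    (by exact_mod_cast log_le (k := 3) (by omega) (by omega)) hs0 h

/-- exhaustive search -/
theorem upper (n q : ℕ) : ∃ C : Circuit (Fin 3 × Fin n × Fin n) (fun _ => ℤ) 1 q,
    C.bits = 0 ∧ C.circ.cost (edges n) ≤ 6 * n ^ 3 + 1 ∧ ∀ x, C.eval x = zeroTri x := by
  obtain ⟨F, h1, h2⟩ := Pool.Agent.R617.RFE.upper n 1 q
  obtain ⟨B, h3, h4⟩ := Pool.Agent.Y638.RF.exists_program F (6 * n ^ 3 + 1) (by omega)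
  obtain ⟨C, h5, h6, h7⟩ := exists_circuit le_rfl B (edges n)
  refine ⟨C, h5, h6.trans (le_of_eq (by ring)), fun x => ?_⟩
  rw [h7, h4, h2]

end Run7.h413.MX.ExactTri
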