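import Pool.Agent.Run7.h413.MX.Arith
import Pool.Agent.Y638.RF.Tri

set_option autoImplicit false

/-! # Triangles -/

namespace Run7.h413.MX.Tri

open Finset Pool.Agent.TH697.Form Pool.Agent.TH697.Row
open Pool.Agent.TH457.Ary.Tri
open Pool.Agent.TH457.Ary.Sat (exists_k)
open Pool.Agent.Y638.RF Pool.Agent.Y638.RF.Tri

variable {m c w : ℕ}

/-- the arithmetic -/
theorem arith {m k c w N l L0 s : ℝ} (hm : 1000 ≤ m) (hk : 4 ≤ k) (hc : 1 ≤ c) (hw : 1 ≤ w)
    (hN : m * k / 2 ≤ N) (hl0 : 4 ≤ l) (hl : l ≤ 5 / 2 * k) (hL0 : L0 ≤ 2 * l) (hs : 0 ≤ s)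
    (h : m * ((49 / 600 - 0) * N - 1) ≤
      (1 + (15 + 8 * L0) * (9 * l) + 2 * (w - 1) * (c * l)) * s) :
    m ^ 2 ≤ 12000 * (w * c + l) * s := by
  have h0 : 1000 * k ≤ m * k := mul_le_mul_of_nonneg_right hm (by linarith)
  have h1 : m * k / 25 ≤ (49 / 600 - 0) * N - 1 := by linarith
  have h2 : m * (m * k / 25) ≤ m * ((49 / 600 - 0) * N - 1) :=
    mul_le_mul_of_nonneg_left h1 (by linarith)
  have hf := factor_le (l := l) (L0 := L0) (k := 2) (p := 9) (W := 2 * (w - 1) * (c * l))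
    (by linarith) (by norm_num) (by norm_num) hL0
  have h3 : 1 + (15 + 8 * L0) * (9 * l) + 2 * (w - 1) * (c * l) ≤
      460 * (w * c + l) * k := by
    have h4 : (w - 1) * (c * l) ≤ (w - 1) * (c * (5 / 2 * k)) :=
      mul_le_mul_of_nonneg_left (mul_le_mul_of_nonneg_left hl (by linarith)) (by linarith)
    have h6 : l * l ≤ l * (5 / 2 * k) := mul_le_mul_of_nonneg_left hl (by linarith)
    have h8 : 0 ≤ c * k := by positivity
    have h9 : 0 ≤ w * (c * k) := by positivity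
    have h11 : 0 ≤ l * k := by positivity
    have h10 : (w - 1) * (c * (5 / 2 * k)) ≤ 5 / 2 * (w * (c * k)) := by nlinarith
    have e1 : 460 * (w * c + l) * k = 460 * (w * (c * k)) + 460 * (l * k) := by ring
    rw [e1]
    linarith
  have h4 := mul_le_mul_of_nonneg_right h3 hs
  have h5 : k * m ^ 2 ≤ k * (12000 * (w * c + l) * s) := by
    have e1 : m * (m * k / 25) = k * m ^ 2 / 25 := by ring
    have e2 : 460 * (w * c + l) * k * s = 460 * (k * ((w * c + l) * s)) := by ring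
    have h6 : 0 ≤ k * ((w * c + l) * s) := by
      have : 0 ≤ w * c := by positivity
      positivity
    rw [e1] at h2
    rw [e2] at h4
    nlinarith
  exact le_of_mul_le_mul_left h5 (by linarith)

theorem bound (hm : 1000 ≤ m) (hc : 1 ≤ c) (hw : 1 ≤ w)
    {Ω : Type} [Fintype Ω] (μ : Ω → ℝ) (hμ : IsProb μ) (s : ℕ)
    (C : Ω → Circuit (Fin m) (fun _ => Edge (2 * m)) w (m ^ c))
    (hs : ∀ ω, (C ω).circ.cost univ ≤ s)
    (hC : ApproximatesOn μ (fun ω => (C ω).eval) Simple triangle) :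
    (m : ℝ) ^ 2 ≤ 12000 * (w * c + Real.logb 2 m) * s := by
  classical
  have hw' : (1 : ℝ) ≤ w := by exact_mod_cast hw
  have hc' : (1 : ℝ) ≤ c := by exact_mod_cast hc
  have hs0 : (0 : ℝ) ≤ s := Nat.cast_nonneg s
  have hl1 : (4 : ℝ) ≤ Real.logb 2 m := by
    have h1 : 2 ^ 4 ≤ m := by omega
    rw [Real.le_logb_iff_rpow_le (by norm_num) (by exact_mod_cast (by omega : 0 < m))]
    exact_mod_cast h1
  by_cases hsm : m ^ 2 ≤ s
  · have h1 : (m : ℝ) ^ 2 ≤ s := by exact_mod_cast hsm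
    have h2 : (1 : ℝ) ≤ w * c := by nlinarith
    have h3 : (1 : ℝ) ≤ 12000 * (w * c + Real.logb 2 m) := by linarith
    nlinarith
  obtain ⟨k, hk, hk1, hk2⟩ := exists_k (m := m) (by omega)
  have hM : 64 * (4 * m ^ 2) * s ^ 3 + 2 + s ≤ m ^ 9 := by
    have h1 : s ≤ m ^ 2 := by omega
    have h2 : 64 * (4 * m ^ 2) * s ^ 3 ≤ 64 * (4 * m ^ 2) * (m ^ 2) ^ 3 :=
      Nat.mul_le_mul_left _ (Nat.pow_le_pow_left h1 3)
    have h3 : 64 * (4 * m ^ 2) * (m ^ 2) ^ 3 = 256 * m ^ 8 := by ring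
    have h4 : m ^ 2 ≤ m ^ 8 := Nat.pow_le_pow_right (by omega) (by norm_num)
    have h5 : 1000 * m ^ 8 ≤ m ^ 9 := by
      calc 1000 * m ^ 8 ≤ m * m ^ 8 := Nat.mul_le_mul_right _ hm
        _ = m ^ 9 := by ring
    have h6 : 1 ≤ m ^ 8 := Nat.one_le_pow _ _ (by omega)
    omega
  have h := circuit_lower (D := fun _ : Fin m => Edge (2 * m)) μ hμ s C Simple triangle hC
    (Nat.one_le_pow _ _ (by omega)) hw (4 * m ^ 2) (m ^ 9) hM 0 univ hs (T := Fin (M m k) × Fin k)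
    (fun p _ => asks (by omega) hk1 p)
  rw [card_univ (α := Fin m), Fintype.card_fin, Nat.cast_pow m 9, Nat.cast_pow m c,
    Real.logb_pow, Real.logb_pow] at h
  refine arith (N := ((Fintype.card (Fin (M m k) × Fin k) : ℕ) : ℝ))
    (l := Real.logb 2 (m : ℝ)) (L0 := (Nat.log 2 s : ℝ)) (by exact_mod_cast hm)
    (by exact_mod_cast hk) hc' hw' (card_T (by omega) hk1)
    hl1 (logb_m hk (by omega) hk2)
    (by exact_mod_cast log_le (k := 2) (by omega) (by omega)) hs0 ?_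
  push_cast at h ⊢
  exact h

end Run7.h413.MX.Tri
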