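import Pool.Agent.Run7.h413.MX.Lower

set_option autoImplicit false

/-! # Arithmetic for the applications -/

namespace Run7.h413.MX

/-- The logarithm of the size. -/
theorem log_le {n k s : ℕ} (hn : 1 ≤ n) (hs : s < n ^ k) :
    (Nat.log 2 s : ℝ) ≤ k * Real.logb 2 n := by
  rcases Nat.eq_zero_or_pos s with h0 | h0
  · subst h0
    simp only [Nat.log_zero_right, Nat.cast_zero]
    exact mul_nonneg (Nat.cast_nonneg k) (Real.logb_nonneg (by norm_num) (by exact_mod_cast hn))
  · have h1 : 2 ^ Nat.log 2 s ≤ n ^ k := (Nat.pow_log_le_self 2 (by omega)).trans hs.le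
    have h2 : ((2 : ℝ) ^ (Nat.log 2 s)) ≤ (n : ℝ) ^ k := by exact_mod_cast h1
    have h3 : (0 : ℝ) < (n : ℝ) ^ k := by
      have : (0 : ℝ) < n := by exact_mod_cast hn
      positivity
    have h4 := Real.logb_le_logb_of_le (b := 2) (by norm_num) (by positivity) h2
    rw [Real.logb_pow, Real.logb_pow, Real.logb_self_eq_one (by norm_num), mul_one] at h4
    exact h4

/-- The factor of the lower bound: `M = n ^ p`, `s < n ^ k`. -/
theorem factor_le {l L0 k p W : ℝ} (hl : 4 ≤ l) (_hk : 0 ≤ k) (hp : 1 ≤ p) (h0 : L0 ≤ k * l) :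
    1 + (15 + 8 * L0) * (p * l) + W ≤ (4 + 8 * k) * p * (l * l) + W := by
  have hpl : 4 ≤ p * l := by nlinarith
  have h1 : (15 + 8 * L0) * (p * l) ≤ (15 + 8 * (k * l)) * (p * l) :=
    mul_le_mul_of_nonneg_right (by linarith) (by linarith)
  have h2 : 1 + 15 * (p * l) ≤ 16 * (p * l) := by linarith
  have h3 : 16 * (p * l) ≤ 4 * (l * (p * l)) := by nlinarith
  nlinarith

end Run7.h413.MX
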