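import Pool.Agent.Helper448.Warren

set_option autoImplicit false

/-! # Families of real functions which are given by few polynomials and few tests -/

namespace Run7.h413.MX

open Finset MvPolynomial

/-- On every finite set the function is a truncated affine function, or a function of the sign of
an affine form. -/
def Un (u : ℝ → ℝ) : Prop :=
  ∀ X : Finset ℝ,
    (∃ α β a b : ℝ, a ≤ b ∧ ∀ x ∈ X, u x = max a (min b (α * x + β))) ∨
    (∃ α β c d : ℝ, ∀ x ∈ X, u x = if 0 < α * x + β then d else c)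

theorem Un.id : Un id := by
  classical
  intro X
  obtain ⟨R, hR⟩ := (X.image (fun x => |x|)).exists_le
  refine Or.inl ⟨1, 0, -(max R 0), max R 0, ?_, fun x hx => ?_⟩
  · have := le_max_right R 0
    linarith
  · have h1 : |x| ≤ max R 0 := (hR _ (mem_image_of_mem _ hx)).trans (le_max_left _ _)
    rw [abs_le] at h1
    rw [one_mul, add_zero, min_eq_right h1.2, max_eq_right h1.1]
    rfl

theorem Un.comp {u : ℝ → ℝ} (h : Un u) (γ δ : ℝ) : Un (fun x => u (γ * x + δ)) := by
  classical
  intro X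
  rcases h (X.image (fun x => γ * x + δ)) with ⟨α, β, a, b, hab, hu⟩ | ⟨α, β, c, d, hu⟩
  · refine Or.inl ⟨α * γ, α * δ + β, a, b, hab, fun x hx => ?_⟩
    simp only
    rw [hu _ (mem_image_of_mem _ hx)]
    congr 2
    ring
  · refine Or.inr ⟨α * γ, α * δ + β, c, d, fun x hx => ?_⟩
    simp only
    rw [hu _ (mem_image_of_mem _ hx)]
    have : α * (γ * x + δ) + β = α * γ * x + (α * δ + β) := by ring
    rw [this]

theorem Un.comp_max {u : ℝ → ℝ} (h : Un u) (c : ℝ) : Un (fun x => u (max c x)) := by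
  classical
  intro X
  rcases h (X.image (fun x => max c x)) with ⟨α, β, a, b, hab, hu⟩ | ⟨α, β, c0, c1, hu⟩
  · obtain ⟨e, he⟩ : ∃ e, e = α * c + β := ⟨_, rfl⟩
    rcases le_total 0 α with hα | hα
    · refine Or.inl ⟨α, β, max a (min b e), b, max_le hab (min_le_left _ _), fun x hx => ?_⟩
      simp only
      rw [hu _ (mem_image_of_mem _ hx)]
      rcases le_total c x with hx1 | hx1
      · rw [max_eq_right hx1]
        have : e ≤ α * x + β := by
          rw [he]
          nlinarith
        generalize α * x + β = t at this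
        simp only [max_def, min_def]
        split_ifs <;> linarith
      · rw [max_eq_left hx1, ← he]
        have : α * x + β ≤ e := by
          rw [he]
          nlinarith
        generalize α * x + β = t at this
        simp only [max_def, min_def]
        split_ifs <;> linarith
    · refine Or.inl ⟨α, β, a, max a (min b e), le_max_left _ _, fun x hx => ?_⟩
      simp only
      rw [hu _ (mem_image_of_mem _ hx)]
      rcases le_total c x with hx1 | hx1
      · rw [max_eq_right hx1]
        have : α * x + β ≤ e := by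
          rw [he]
          nlinarith
        generalize α * x + β = t at this
        simp only [max_def, min_def]
        split_ifs <;> linarith
      · rw [max_eq_left hx1, ← he]
        have : e ≤ α * x + β := by
          rw [he]
          nlinarith
        generalize α * x + β = t at this
        simp only [max_def, min_def]
        split_ifs <;> linarith
  · obtain ⟨e, he⟩ : ∃ e, e = α * c + β := ⟨_, rfl⟩
    have hsign : ∀ x, 0 < α * max c x + β ↔
        (0 ≤ α ∧ (0 < e ∨ 0 < α * x + β)) ∨ (α ≤ 0 ∧ (0 < e ∧ 0 < α * x + β)) := by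
      intro x
      rcases le_total c x with hx1 | hx1
      · rw [max_eq_right hx1]
        constructor
        · intro h1
          rcases le_total 0 α with hα | hα
          · exact Or.inl ⟨hα, Or.inr h1⟩
          · refine Or.inr ⟨hα, ?_, h1⟩
            rw [he]
            nlinarith
        · rintro (⟨hα, h1 | h1⟩ | ⟨hα, h1, h2⟩)
          · rw [he] at h1
            nlinarith
          · exact h1
          · exact h2
      · rw [max_eq_left hx1, ← he]
        constructor
        · intro h1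
          rcases le_total 0 α with hα | hα
          · exact Or.inl ⟨hα, Or.inl h1⟩
          · refine Or.inr ⟨hα, h1, ?_⟩
            rw [he] at h1
            nlinarith
        · rintro (⟨hα, h1 | h1⟩ | ⟨hα, h1, h2⟩)
          · exact h1
          · rw [he]
            nlinarith
          · exact h1
    rcases le_or_gt 0 α with hα | hα
    · by_cases h0 : 0 < e
      · refine Or.inr ⟨0, 1, c0, c1, fun x hx => ?_⟩
        simp only
        rw [hu _ (mem_image_of_mem _ hx), if_pos ((hsign x).2 (Or.inl ⟨hα, Or.inl h0⟩)),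
          if_pos (by norm_num)]
      · refine Or.inr ⟨α, β, c0, c1, fun x hx => ?_⟩
        simp only
        rw [hu _ (mem_image_of_mem _ hx)]
        have : 0 < α * max c x + β ↔ 0 < α * x + β := by
          rw [hsign]
          constructor
          · rintro (⟨-, h1 | h1⟩ | ⟨-, h1, h2⟩)
            · exact absurd h1 h0
            · exact h1
            · exact h2
          · intro h1
            exact Or.inl ⟨hα, Or.inr h1⟩
        simp only [this]
    · by_cases h0 : 0 < e
      · refine Or.inr ⟨α, β, c0, c1, fun x hx => ?_⟩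
        simp only
        rw [hu _ (mem_image_of_mem _ hx)]
        have : 0 < α * max c x + β ↔ 0 < α * x + β := by
          rw [hsign]
          constructor
          · rintro (⟨h3, h1⟩ | ⟨-, h1, h2⟩)
            · exact absurd hα (not_lt.2 h3)
            · exact h2
          · intro h1
            exact Or.inr ⟨hα.le, h0, h1⟩
        simp only [this]
      · refine Or.inr ⟨0, 0, c0, c1, fun x hx => ?_⟩
        simp only
        rw [hu _ (mem_image_of_mem _ hx), if_neg, if_neg (by norm_num)]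
        rw [hsign]
        rintro (⟨h3, -⟩ | ⟨-, h1, -⟩)
        · exact absurd hα (not_lt.2 h3)
        · exact h0 h1

theorem Un.bool (φ : Bool → ℝ) : Un (fun x => φ (decide (0 < x))) := by
  intro X
  refine Or.inr ⟨1, 0, φ false, φ true, fun x _ => ?_⟩
  simp only [one_mul, add_zero]
  split_ifs with h
  · rw [decide_eq_true h]
  · rw [decide_eq_false h]

/-- A family of real functions: the value at a point is one of finitely many polynomials (the
pieces) in the parameters, and the signs of finitely many polynomials (the tests) tell which one. -/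
structure PFam (Y : Type) where
  σ : Type
  τ : Type
  π : Type
  iσ : Fintype σ
  iτ : Fintype τ
  iπ : Fintype π
  P : Y → π → MvPolynomial σ ℝ
  Q : Y → τ → MvPolynomial σ ℝ
  sel : Y → (τ → SignType) → π

instance {Y : Type} (F : PFam Y) : Fintype F.σ := F.iσ
instance {Y : Type} (F : PFam Y) : Fintype F.τ := F.iτ
instance {Y : Type} (F : PFam Y) : Fintype F.π := F.iπ

/-- The value. -/
noncomputable def PFam.val {Y : Type} (F : PFam Y) (θ : F.σ → ℝ) (v : Y) : ℝ :=
  eval θ (F.P v (F.sel v fun t => SignType.sign (eval θ (F.Q v t))))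

/-- A family of real functions which are given by polynomials. -/
structure SFam (Y : Type) where
  σ : Type
  iσ : Fintype σ
  P : Y → MvPolynomial σ ℝ

instance {Y : Type} (F : SFam Y) : Fintype F.σ := F.iσ

variable {Y : Type} {M D D' K K' T T' p p' W W' : ℕ} {𝒢 𝒢' : Set (Y → ℝ)}

/-- The functions in `𝒢` are given by finitely many families with at most `p` parameters, with
polynomials of degree at most `D`, `K` pieces and `T` tests at every point; a family with `m`
parameters is counted with the weight `M ^ m`. -/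
def PCov (M D K T p W : ℕ) (𝒢 : Set (Y → ℝ)) : Prop :=
  ∃ (κ : Type) (_ : Fintype κ) (F : κ → PFam Y),
    ((∀ k v j, ((F k).P v j).totalDegree ≤ D) ∧ (∀ k v t, ((F k).Q v t).totalDegree ≤ D)) ∧
    ((∀ k, Fintype.card (F k).π ≤ K) ∧ (∀ k, Fintype.card (F k).τ ≤ T) ∧
      (∀ k, Fintype.card (F k).σ ≤ p)) ∧ (∑ k, M ^ Fintype.card (F k).σ ≤ W) ∧
    ∀ g ∈ 𝒢, ∃ (k : κ) (θ : (F k).σ → ℝ), ∀ v, g v = (F k).val θ v

/-- The same without tests. -/
def SCov (M D p W : ℕ) (𝒢 : Set (Y → ℝ)) : Prop :=
  ∃ (κ : Type) (_ : Fintype κ) (F : κ → SFam Y),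
    (∀ k v, ((F k).P v).totalDegree ≤ D) ∧ (∀ k, Fintype.card (F k).σ ≤ p) ∧
    (∑ k, M ^ Fintype.card (F k).σ ≤ W) ∧
    ∀ g ∈ 𝒢, ∃ (k : κ) (θ : (F k).σ → ℝ), ∀ v, g v = eval θ ((F k).P v)

theorem PCov.mono (h : PCov M D K T p W 𝒢) (hD : D ≤ D') (hK : K ≤ K') (hT : T ≤ T')
    (hp : p ≤ p') (hW : W ≤ W') (hG : 𝒢' ⊆ 𝒢) : PCov M D' K' T' p' W' 𝒢' := by
  obtain ⟨κ, _, F, ⟨h1, h2⟩, ⟨h3, h4, h5⟩, h6, h7⟩ := h
  exact ⟨κ, _, F, ⟨fun k v j => (h1 k v j).trans hD, fun k v j => (h2 k v j).trans hD⟩,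
    ⟨fun k => (h3 k).trans hK, fun k => (h4 k).trans hT, fun k => (h5 k).trans hp⟩,
    h6.trans hW, fun g hg => h7 g (hG hg)⟩

theorem pcov_of_finite {κ : Type} [Fintype κ] (f : κ → Y → ℝ) :
    PCov M 0 1 0 0 (Fintype.card κ) (Set.range f) := by
  refine ⟨κ, inferInstance, fun k => ⟨Empty, Empty, Unit, inferInstance, inferInstance,
    inferInstance, fun v _ => C (f k v), fun _ t => t.elim, fun _ _ => ()⟩,
    ⟨fun k v j => ?_, fun k v t => t.elim⟩, ⟨fun k => ?_, fun k => ?_, fun k => ?_⟩, ?_, ?_⟩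
  · simp
  · exact le_of_eq Fintype.card_unit
  · exact le_of_eq Fintype.card_empty
  · exact le_of_eq Fintype.card_empty
  · simp only [Fintype.card_empty, pow_zero, sum_const, card_univ, smul_eq_mul, mul_one]
    exact le_rfl
  · rintro g ⟨k, rfl⟩
    exact ⟨k, fun e => e.elim, fun v => by simp [PFam.val]⟩

open Classical in
/-- The tests can be replaced by a larger number of families. -/
theorem PCov.refine [Fintype Y] (h : PCov M D K T p W 𝒢)
    (hM : 4 * (Fintype.card Y * T) * D + 2 ≤ M) : SCov M D p (W * M ^ p) 𝒢 := by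
  obtain ⟨κ, _, F, ⟨h1, h2⟩, ⟨h3, h4, h5⟩, h6, h7⟩ := h
  obtain ⟨R, hR⟩ : ∃ R : (k : κ) → Set (Y × (F k).τ → SignType), R = fun k =>
      Set.range (fun θ : (F k).σ → ℝ => fun v : Y × (F k).τ =>
        SignType.sign (eval θ ((F k).Q v.1 v.2))) := ⟨_, rfl⟩
  have hRc : ∀ k, Fintype.card (R k) ≤ M ^ Fintype.card (F k).σ := by
    intro k
    rw [← Nat.card_eq_fintype_card, Nat.card_coe_set_eq, hR]
    refine (Pool.Agent.Helper448.Warren.ncard_sign_patterns_le
      (fun v : Y × (F k).τ => (F k).Q v.1 v.2) D (fun v => h2 k v.1 v.2)).trans ?_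
    apply Nat.pow_le_pow_left
    refine le_trans ?_ hM
    rw [Fintype.card_prod]
    exact Nat.add_le_add_right (Nat.mul_le_mul_right _ (Nat.mul_le_mul_left _
      (Nat.mul_le_mul_left _ (h4 k)))) 2
  refine ⟨Σ k : κ, R k, inferInstance, fun k => ⟨(F k.1).σ, inferInstance, fun v =>
    (F k.1).P v ((F k.1).sel v (fun t => k.2.1 (v, t)))⟩, fun k v => h1 _ _ _,
    fun k => h5 _, ?_, ?_⟩
  · rw [Fintype.sum_sigma]
    calc ∑ k, ∑ _y : R k, M ^ Fintype.card (F k).σ
        = ∑ k, Fintype.card (R k) * M ^ Fintype.card (F k).σ := by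
          refine sum_congr rfl fun k _ => ?_
          rw [sum_const, card_univ, smul_eq_mul]
      _ ≤ ∑ k, M ^ p * M ^ Fintype.card (F k).σ := by
          apply sum_le_sum
          intro k _
          apply Nat.mul_le_mul_right
          exact (hRc k).trans (Nat.pow_le_pow_right (by omega) (h5 k))
      _ = (∑ k, M ^ Fintype.card (F k).σ) * M ^ p := by
          rw [sum_mul]
          exact sum_congr rfl fun k _ => mul_comm _ _
      _ ≤ W * M ^ p := Nat.mul_le_mul_right _ h6
  · intro g hg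
    obtain ⟨k, θ, hk⟩ := h7 g hg
    refine ⟨⟨k, ⟨fun v => SignType.sign (eval θ ((F k).Q v.1 v.2)), ?_⟩⟩, θ, fun v => ?_⟩
    · rw [hR]
      exact ⟨θ, rfl⟩
    · rw [hk v]
      rfl

open Classical in
/-- few sign patterns -/
theorem PCov.bool [Fintype Y] (h : PCov M D K T p W 𝒢)
    (hM : 4 * (Fintype.card Y * (T + K)) * D + 2 ≤ M) :
    ∃ S : Finset (Y → Bool), S.card ≤ W ∧ ∀ g ∈ 𝒢, (fun v => decide (0 < g v)) ∈ S := by
  obtain ⟨κ, _, F, ⟨h1, h2⟩, ⟨h3, h4, h5⟩, h6, h7⟩ := h
  obtain ⟨Q, hQ⟩ : ∃ Q : (k : κ) → Y × ((F k).τ ⊕ (F k).π) → MvPolynomial (F k).σ ℝ,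
    Q = fun k v => Sum.elim (fun t => (F k).Q v.1 t) (fun j => (F k).P v.1 j) v.2 := ⟨_, rfl⟩
  have hQd : ∀ k v, (Q k v).totalDegree ≤ D := by
    rintro k ⟨v, t | j⟩
    · rw [hQ]
      exact h2 k v t
    · rw [hQ]
      exact h1 k v j
  refine ⟨univ.biUnion (fun k : κ => (Set.toFinite (Set.range (fun θ : (F k).σ → ℝ =>
    fun v : Y × ((F k).τ ⊕ (F k).π) => SignType.sign (eval θ (Q k v))))).toFinset.image
      (fun s => fun v => decide (s (v, Sum.inr ((F k).sel v (fun t => s (v, Sum.inl t)))) = 1))),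
      ?_, ?_⟩
  · refine card_biUnion_le.trans (le_trans ?_ h6)
    apply sum_le_sum
    intro k _
    refine card_image_le.trans ?_
    rw [← Set.ncard_eq_toFinset_card]
    refine (Pool.Agent.Helper448.Warren.ncard_sign_patterns_le (Q k) D (hQd k)).trans ?_
    apply Nat.pow_le_pow_left
    refine le_trans ?_ hM
    rw [Fintype.card_prod, Fintype.card_sum]
    exact Nat.add_le_add_right (Nat.mul_le_mul_right _ (Nat.mul_le_mul_left _
      (Nat.mul_le_mul_left _ (add_le_add (h4 k) (h3 k))))) 2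
  · intro g hg
    obtain ⟨k, θ, hk⟩ := h7 g hg
    rw [mem_biUnion]
    refine ⟨k, mem_univ _, ?_⟩
    rw [mem_image]
    refine ⟨fun v => SignType.sign (eval θ (Q k v)), ?_, ?_⟩
    · rw [Set.Finite.mem_toFinset]
      exact ⟨θ, rfl⟩
    · funext v
      simp only [sign_eq_one_iff, hQ, Sum.elim_inl, Sum.elim_inr, hk, PFam.val]

/-- the four new parameters -/
theorem weight_un {κ : Type} [Fintype κ] (F : κ → PFam Y)
    (h : ∑ k, M ^ Fintype.card (F k).σ ≤ W) :
    ∑ _k : κ, M ^ Fintype.card ((F _k).σ ⊕ Fin 4) + ∑ _k : κ, M ^ Fintype.card ((F _k).σ ⊕ Fin 4) ≤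
      2 * (W * M ^ 4) := by
  have e : ∑ k, M ^ Fintype.card ((F k).σ ⊕ Fin 4) = (∑ k, M ^ Fintype.card (F k).σ) * M ^ 4 := by
    rw [sum_mul]
    refine sum_congr rfl fun k _ => ?_
    rw [Fintype.card_sum, Fintype.card_fin, pow_add]
  rw [e, ← two_mul]
  exact Nat.mul_le_mul_left _ (Nat.mul_le_mul_right _ h)

/-- Truncated affine functions of the values: four new parameters. -/
noncomputable def PFam.clamp (F : PFam Y) : PFam Y where
  σ := F.σ ⊕ Fin 4
  τ := F.τ ⊕ (F.π ⊕ F.π)
  π := F.π ⊕ Bool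
  iσ := inferInstance
  iτ := inferInstance
  iπ := inferInstance
  P := fun v j => match j with
    | .inl j => X (Sum.inr 0) * rename Sum.inl (F.P v j) + X (Sum.inr 1)
    | .inr true => X (Sum.inr 3)
    | .inr false => X (Sum.inr 2)
  Q := fun v t => match t with
    | .inl t => rename Sum.inl (F.Q v t)
    | .inr (.inl j) => X (Sum.inr 0) * rename Sum.inl (F.P v j) + X (Sum.inr 1) - X (Sum.inr 3)
    | .inr (.inr j) => X (Sum.inr 2) - (X (Sum.inr 0) * rename Sum.inl (F.P v j) + X (Sum.inr 1))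
  sel := fun v s => if s (Sum.inr (Sum.inl (F.sel v (fun t => s (Sum.inl t))))) = 1 then
        Sum.inr true else if s (Sum.inr (Sum.inr (F.sel v (fun t => s (Sum.inl t))))) = 1
        then Sum.inr false else Sum.inl (F.sel v (fun t => s (Sum.inl t)))

/-- Functions of the sign of an affine function of the values: four new parameters. -/
noncomputable def PFam.step (F : PFam Y) : PFam Y where
  σ := F.σ ⊕ Fin 4
  τ := F.τ ⊕ F.π
  π := Bool
  iσ := inferInstance
  iτ := inferInstance
  iπ := inferInstance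
  P := fun _ j => match j with
    | true => X (Sum.inr 3)
    | false => X (Sum.inr 2)
  Q := fun v t => match t with
    | .inl t => rename Sum.inl (F.Q v t)
    | .inr j => X (Sum.inr 0) * rename Sum.inl (F.P v j) + X (Sum.inr 1)
  sel := fun v s => if s (Sum.inr (F.sel v (fun t => s (Sum.inl t)))) = 1 then true else false

theorem eval_aff {σ : Type} (P : MvPolynomial σ ℝ) (θ : σ → ℝ) (e : Fin 4 → ℝ) :
    eval (Sum.elim θ e) (X (Sum.inr 0) * rename Sum.inl P + X (Sum.inr 1)) =
      e 0 * eval θ P + e 1 := by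
  simp only [map_add, map_mul, eval_X, eval_rename, Sum.elim_inr, Sum.elim_comp_inl]

theorem eval_inl {σ : Type} (P : MvPolynomial σ ℝ) (θ : σ → ℝ) (e : Fin 4 → ℝ) :
    eval (Sum.elim θ e) (rename Sum.inl P) = eval θ P := by
  rw [eval_rename, Sum.elim_comp_inl]

theorem PFam.clamp_val (F : PFam Y) (θ : F.σ → ℝ) (α β a b : ℝ) (hab : a ≤ b) (v : Y) :
    F.clamp.val (Sum.elim θ ![α, β, a, b]) v = max a (min b (α * F.val θ v + β)) := by
  obtain ⟨j, hj⟩ : ∃ j, j = F.sel v (fun t => SignType.sign (eval θ (F.Q v t))) := ⟨_, rfl⟩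
  have e1 : (fun t => SignType.sign (eval (Sum.elim θ ![α, β, a, b]) (F.clamp.Q v (Sum.inl t)))) =
      fun t => SignType.sign (eval θ (F.Q v t)) := by
    funext t
    exact congrArg _ (eval_inl _ _ _)
  have e2 : eval (Sum.elim θ ![α, β, a, b]) (F.clamp.Q v (Sum.inr (Sum.inl j))) =
      α * eval θ (F.P v j) + β - b := by
    change eval _ (X (Sum.inr 0) * rename Sum.inl (F.P v j) + X (Sum.inr 1) - X (Sum.inr 3)) = _
    rw [map_sub, eval_aff]
    simp
  have e3 : eval (Sum.elim θ ![α, β, a, b]) (F.clamp.Q v (Sum.inr (Sum.inr j))) =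
      a - (α * eval θ (F.P v j) + β) := by
    change eval _ (X (Sum.inr 2) - (X (Sum.inr 0) * rename Sum.inl (F.P v j) + X (Sum.inr 1))) = _
    rw [map_sub, eval_aff]
    simp
  have e4 : eval (Sum.elim θ ![α, β, a, b]) (F.clamp.P v (Sum.inl j)) =
      α * eval θ (F.P v j) + β := by
    change eval _ (X (Sum.inr 0) * rename Sum.inl (F.P v j) + X (Sum.inr 1)) = _
    rw [eval_aff]
    simp
  have e5 : eval (Sum.elim θ ![α, β, a, b]) (F.clamp.P v (Sum.inr true)) = b := by
    change eval _ (X (Sum.inr 3)) = _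
    simp
  have e6 : eval (Sum.elim θ ![α, β, a, b]) (F.clamp.P v (Sum.inr false)) = a := by
    change eval _ (X (Sum.inr 2)) = _
    simp
  have e7 : F.clamp.sel v (fun t => SignType.sign (eval (Sum.elim θ ![α, β, a, b])
      (F.clamp.Q v t))) = if 0 < α * eval θ (F.P v j) + β - b then Sum.inr true else
        if 0 < a - (α * eval θ (F.P v j) + β) then Sum.inr false else Sum.inl j := by
    change (if (SignType.sign (eval (Sum.elim θ ![α, β, a, b]) (F.clamp.Q v (Sum.inr (Sum.inl
        (F.sel v (fun t => SignType.sign (eval (Sum.elim θ ![α, β, a, b])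
          (F.clamp.Q v (Sum.inl t)))))))))) = 1 then
        Sum.inr true else if (SignType.sign (eval (Sum.elim θ ![α, β, a, b]) (F.clamp.Q v
          (Sum.inr (Sum.inr (F.sel v (fun t => SignType.sign (eval (Sum.elim θ ![α, β, a, b])
          (F.clamp.Q v (Sum.inl t)))))))))) = 1
        then Sum.inr false else Sum.inl (F.sel v (fun t => SignType.sign
          (eval (Sum.elim θ ![α, β, a, b]) (F.clamp.Q v (Sum.inl t)))))) = _
    rw [e1, ← hj, e2, e3]
    simp only [sign_eq_one_iff]
  have e8 : F.val θ v = eval θ (F.P v j) := by rw [hj]; rfl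
  refine (congrArg (fun j' => eval (Sum.elim θ ![α, β, a, b]) (F.clamp.P v j')) e7).trans ?_
  rw [e8]
  obtain ⟨y, hy⟩ : ∃ y, y = α * eval θ (F.P v j) + β := ⟨_, rfl⟩
  rw [← hy] at e4 ⊢
  split_ifs with q1 q2
  · rw [e5, min_eq_left (by linarith), max_eq_right hab]
  · rw [e6, min_eq_right (by linarith), max_eq_left (by linarith)]
  · rw [e4, min_eq_right (by linarith), max_eq_right (by linarith)]

theorem PFam.step_val (F : PFam Y) (θ : F.σ → ℝ) (α β c d : ℝ) (v : Y) :
    F.step.val (Sum.elim θ ![α, β, c, d]) v = if 0 < α * F.val θ v + β then d else c := by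
  obtain ⟨j, hj⟩ : ∃ j, j = F.sel v (fun t => SignType.sign (eval θ (F.Q v t))) := ⟨_, rfl⟩
  have e1 : (fun t => SignType.sign (eval (Sum.elim θ ![α, β, c, d]) (F.step.Q v (Sum.inl t)))) =
      fun t => SignType.sign (eval θ (F.Q v t)) := by
    funext t
    exact congrArg _ (eval_inl _ _ _)
  have e2 : eval (Sum.elim θ ![α, β, c, d]) (F.step.Q v (Sum.inr j)) =
      α * eval θ (F.P v j) + β := by
    change eval _ (X (Sum.inr 0) * rename Sum.inl (F.P v j) + X (Sum.inr 1)) = _
    rw [eval_aff]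
    simp
  have e5 : eval (Sum.elim θ ![α, β, c, d]) (F.step.P v true) = d := by
    change eval _ (X (Sum.inr 3)) = _
    simp
  have e6 : eval (Sum.elim θ ![α, β, c, d]) (F.step.P v false) = c := by
    change eval _ (X (Sum.inr 2)) = _
    simp
  have e7 : F.step.sel v (fun t => SignType.sign (eval (Sum.elim θ ![α, β, c, d])
      (F.step.Q v t))) = if 0 < α * eval θ (F.P v j) + β then true else false := by
    change (if (SignType.sign (eval (Sum.elim θ ![α, β, c, d]) (F.step.Q v (Sum.inr
        (F.sel v (fun t => SignType.sign (eval (Sum.elim θ ![α, β, c, d])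
          (F.step.Q v (Sum.inl t))))))))) = 1 then true else false) = _
    rw [e1, ← hj, e2]
    simp only [sign_eq_one_iff]
  have e8 : F.val θ v = eval θ (F.P v j) := by rw [hj]; rfl
  refine (congrArg (fun j' => eval (Sum.elim θ ![α, β, c, d]) (F.step.P v j')) e7).trans ?_
  rw [e8]
  split_ifs with q1
  · exact e5
  · exact e6

open Classical in
/-- composition with unary functions -/
theorem PCov.un [Fintype Y] (h : PCov M D K T p W 𝒢) :
    PCov M (D + 1) (K + 2) (T + 2 * K) (p + 4) (2 * (W * M ^ 4))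
      {g' | ∃ g ∈ 𝒢, ∃ u, Un u ∧ g' = fun v => u (g v)} := by
  obtain ⟨κ, _, F, ⟨h1, h2⟩, ⟨h3, h4, h5⟩, h6, h7⟩ := h
  have hdeg : ∀ k v j, (X (Sum.inr 0) * rename Sum.inl ((F k).P v j) + X (Sum.inr 1) :
      MvPolynomial ((F k).σ ⊕ Fin 4) ℝ).totalDegree ≤ D + 1 := by
    intro k v j
    refine (totalDegree_add _ _).trans (max_le ?_ ?_)
    · refine (totalDegree_mul _ _).trans ?_
      rw [totalDegree_X, add_comm]
      exact Nat.add_le_add_right ((totalDegree_rename_le _ _).trans (h1 k v j)) 1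
    · rw [totalDegree_X]
      omega
  have hX : ∀ (k : κ) (i : Fin 4), (X (Sum.inr i) :
      MvPolynomial ((F k).σ ⊕ Fin 4) ℝ).totalDegree ≤ D + 1 := by
    intro k i
    rw [totalDegree_X]
    omega
  refine ⟨κ ⊕ κ, inferInstance, Sum.elim (fun k => (F k).clamp) (fun k => (F k).step),
    ⟨?_, ?_⟩, ⟨?_, ?_, ?_⟩, ?_, ?_⟩
  · rintro (k | k) v j
    · rcases j with j | (_ | _)
      · exact hdeg k v j
      · exact hX k 2
      · exact hX k 3
    · rcases j with _ | _
      · exact hX k 2
      · exact hX k 3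
  · rintro (k | k) v t
    · rcases t with t | (t | t)
      · exact ((totalDegree_rename_le _ _).trans (h2 k v t)).trans (by omega)
      · exact (totalDegree_sub _ _).trans (max_le (hdeg k v t) (hX k 3))
      · exact (totalDegree_sub _ _).trans (max_le (hX k 2) (hdeg k v t))
    · rcases t with t | t
      · exact ((totalDegree_rename_le _ _).trans (h2 k v t)).trans (by omega)
      · exact hdeg k v t
  · rintro (k | k)
    · have := h3 k
      change Fintype.card ((F k).π ⊕ Bool) ≤ K + 2
      rw [Fintype.card_sum, Fintype.card_bool]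
      omega
    · change Fintype.card Bool ≤ K + 2
      rw [Fintype.card_bool]
      omega
  · rintro (k | k)
    · have := h3 k
      have := h4 k
      change Fintype.card ((F k).τ ⊕ ((F k).π ⊕ (F k).π)) ≤ T + 2 * K
      rw [Fintype.card_sum, Fintype.card_sum]
      omega
    · have := h3 k
      have := h4 k
      change Fintype.card ((F k).τ ⊕ (F k).π) ≤ T + 2 * K
      rw [Fintype.card_sum]
      omega
  · rintro (k | k)
    · have := h5 k
      change Fintype.card ((F k).σ ⊕ Fin 4) ≤ p + 4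
      rw [Fintype.card_sum, Fintype.card_fin]
      omega
    · have := h5 k
      change Fintype.card ((F k).σ ⊕ Fin 4) ≤ p + 4
      rw [Fintype.card_sum, Fintype.card_fin]
      omega
  · rw [Fintype.sum_sum_type]
    exact weight_un F h6
  · rintro g' ⟨g, hg, u, hu, rfl⟩
    obtain ⟨k, θ, hk⟩ := h7 g hg
    rcases hu (univ.image g) with ⟨α, β, a, b, hab, hu⟩ | ⟨α, β, c, d, hu⟩
    · refine ⟨Sum.inl k, Sum.elim θ ![α, β, a, b], fun v => ?_⟩
      have hv := hu (g v) (mem_image_of_mem _ (mem_univ _))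
      have h8 := (F k).clamp_val θ α β a b hab v
      simp only
      rw [hv, hk v]
      exact h8.symm
    · refine ⟨Sum.inr k, Sum.elim θ ![α, β, c, d], fun v => ?_⟩
      have hv := hu (g v) (mem_image_of_mem _ (mem_univ _))
      have h8 := (F k).step_val θ α β c d v
      simp only
      rw [hv, hk v]
      exact h8.symm

/-- The gates with two inputs. -/
inductive Op : Type
  | add | mul | max

/-- The value. -/
noncomputable def Op.val : Op → ℝ → ℝ → ℝ
  | add, x, y => x + y
  | mul, x, y => x * y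
  | max, x, y => Max.max x y

theorem Op.comm (o : Op) (x y : ℝ) : o.val x y = o.val y x := by
  cases o
  · exact add_comm x y
  · exact mul_comm x y
  · exact max_comm x y

/-- The combination of a family with a family without tests. -/
noncomputable def PFam.bin (o : Op) (F : PFam Y) (G : SFam Y) : PFam Y where
  σ := F.σ ⊕ G.σ
  τ := F.τ ⊕ F.π
  π := F.π ⊕ Unit
  iσ := inferInstance
  iτ := inferInstance
  iπ := inferInstance
  P := fun v j => match o, j with
    | .add, .inl j => rename Sum.inl (F.P v j) + rename Sum.inr (G.P v)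
    | .mul, .inl j => rename Sum.inl (F.P v j) * rename Sum.inr (G.P v)
    | .max, .inl j => rename Sum.inl (F.P v j)
    | _, .inr () => rename Sum.inr (G.P v)
  Q := fun v t => match t with
    | .inl t => rename Sum.inl (F.Q v t)
    | .inr j => rename Sum.inr (G.P v) - rename Sum.inl (F.P v j)
  sel := fun v s => match o with
    | .max => if s (Sum.inr (F.sel v (fun t => s (Sum.inl t)))) = 1 then Sum.inr () else
        Sum.inl (F.sel v (fun t => s (Sum.inl t)))
    | _ => Sum.inl (F.sel v (fun t => s (Sum.inl t)))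

theorem PFam.bin_val (o : Op) (F : PFam Y) (G : SFam Y) (θ : F.σ → ℝ) (η : G.σ → ℝ) (v : Y) :
    (F.bin o G).val (Sum.elim θ η) v = o.val (F.val θ v) (eval η (G.P v)) := by
  obtain ⟨j, hj⟩ : ∃ j, j = F.sel v (fun t => SignType.sign (eval θ (F.Q v t))) := ⟨_, rfl⟩
  have f1 : ∀ P : MvPolynomial F.σ ℝ, eval (Sum.elim θ η) (rename Sum.inl P) = eval θ P := by
    intro P
    rw [eval_rename, Sum.elim_comp_inl]
  have f2 : ∀ P : MvPolynomial G.σ ℝ, eval (Sum.elim θ η) (rename Sum.inr P) = eval η P := by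
    intro P
    rw [eval_rename, Sum.elim_comp_inr]
  have e1 : (fun t => SignType.sign (eval (Sum.elim θ η) ((F.bin o G).Q v (Sum.inl t)))) =
      fun t => SignType.sign (eval θ (F.Q v t)) := by
    funext t
    exact congrArg _ (f1 _)
  have e2 : eval (Sum.elim θ η) ((F.bin o G).Q v (Sum.inr j)) =
      eval η (G.P v) - eval θ (F.P v j) := by
    change eval _ (rename Sum.inr (G.P v) - rename Sum.inl (F.P v j)) = _
    rw [map_sub, f1, f2]
  have e8 : F.val θ v = eval θ (F.P v j) := by rw [hj]; rfl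
  cases o
  · have e7 : (F.bin .add G).sel v (fun t => SignType.sign (eval (Sum.elim θ η)
        ((F.bin .add G).Q v t))) = Sum.inl j := by
      change Sum.inl (F.sel v (fun t => SignType.sign (eval (Sum.elim θ η)
        ((F.bin .add G).Q v (Sum.inl t))))) = _
      rw [e1, ← hj]
    rw [e8]
    refine (congrArg (fun j' => eval (Sum.elim θ η) ((F.bin .add G).P v j')) e7).trans ?_
    change eval _ (rename Sum.inl (F.P v j) + rename Sum.inr (G.P v)) = _
    rw [map_add, f1, f2]
    rfl
  · have e7 : (F.bin .mul G).sel v (fun t => SignType.sign (eval (Sum.elim θ η)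
        ((F.bin .mul G).Q v t))) = Sum.inl j := by
      change Sum.inl (F.sel v (fun t => SignType.sign (eval (Sum.elim θ η)
        ((F.bin .mul G).Q v (Sum.inl t))))) = _
      rw [e1, ← hj]
    rw [e8]
    refine (congrArg (fun j' => eval (Sum.elim θ η) ((F.bin .mul G).P v j')) e7).trans ?_
    change eval _ (rename Sum.inl (F.P v j) * rename Sum.inr (G.P v)) = _
    rw [map_mul, f1, f2]
    rfl
  · have e7 : (F.bin .max G).sel v (fun t => SignType.sign (eval (Sum.elim θ η)
        ((F.bin .max G).Q v t))) = if 0 < eval η (G.P v) - eval θ (F.P v j) then Sum.inr ()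
          else Sum.inl j := by
      change (if (SignType.sign (eval (Sum.elim θ η) ((F.bin .max G).Q v (Sum.inr
        (F.sel v (fun t => SignType.sign (eval (Sum.elim θ η)
        ((F.bin .max G).Q v (Sum.inl t))))))))) = 1 then Sum.inr () else
        Sum.inl (F.sel v (fun t => SignType.sign (eval (Sum.elim θ η)
        ((F.bin .max G).Q v (Sum.inl t)))))) = _
      rw [e1, ← hj, e2]
      simp only [sign_eq_one_iff]
    rw [e8]
    refine (congrArg (fun j' => eval (Sum.elim θ η) ((F.bin .max G).P v j')) e7).trans ?_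
    change _ = Max.max (eval θ (F.P v j)) (eval η (G.P v))
    split_ifs with q1
    · change eval _ (rename Sum.inr (G.P v)) = _
      rw [f2, max_eq_right (by linarith)]
    · change eval _ (rename Sum.inl (F.P v j)) = _
      rw [f1, max_eq_left (by linarith)]

/-- gates with two live inputs, one of them without tests -/
theorem PCov.bin {D₁ D₂ p₁ p₂ W₁ W₂ : ℕ} {𝒢₁ 𝒢₂ : Set (Y → ℝ)} (o : Op)
    (h₁ : PCov M D₁ K T p₁ W₁ 𝒢₁) (h₂ : SCov M D₂ p₂ W₂ 𝒢₂) :
    PCov M (D₁ + D₂) (K + 1) (T + K) (p₁ + p₂) (W₁ * W₂)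
      {g | ∃ g₁ ∈ 𝒢₁, ∃ g₂ ∈ 𝒢₂, g = fun v => o.val (g₁ v) (g₂ v)} := by
  obtain ⟨κ₁, _, F₁, ⟨a1, a2⟩, ⟨a3, a4, a5⟩, a6, a7⟩ := h₁
  obtain ⟨κ₂, _, F₂, b1, b5, b6, b7⟩ := h₂
  have d1 : ∀ (k : κ₁ × κ₂) (v : Y) (j : (F₁ k.1).π),
      (rename (Sum.inl : _ → (F₁ k.1).σ ⊕ (F₂ k.2).σ) ((F₁ k.1).P v j)).totalDegree ≤ D₁ :=
    fun k v j => (totalDegree_rename_le _ _).trans (a1 _ _ _)
  have d2 : ∀ (k : κ₁ × κ₂) (v : Y),
      (rename (Sum.inr : _ → (F₁ k.1).σ ⊕ (F₂ k.2).σ) ((F₂ k.2).P v)).totalDegree ≤ D₂ :=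
    fun k v => (totalDegree_rename_le _ _).trans (b1 _ _)
  refine ⟨κ₁ × κ₂, inferInstance, fun k => (F₁ k.1).bin o (F₂ k.2),
    ⟨?_, ?_⟩, ⟨?_, ?_, ?_⟩, ?_, ?_⟩
  · rintro k v (j | ⟨⟩)
    · cases o
      · refine (totalDegree_add _ _).trans (max_le ?_ ?_)
        · exact (d1 k v j).trans (by omega)
        · exact (d2 k v).trans (by omega)
      · exact (totalDegree_mul _ _).trans (add_le_add (d1 k v j) (d2 k v))
      · exact (d1 k v j).trans (by omega)
    · cases o
      · exact (d2 k v).trans (by omega)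
      · exact (d2 k v).trans (by omega)
      · exact (d2 k v).trans (by omega)
  · rintro k v (t | t)
    · exact ((totalDegree_rename_le _ _).trans (a2 _ _ _)).trans (by omega)
    · refine (totalDegree_sub _ _).trans (max_le ?_ ?_)
      · exact (d2 k v).trans (by omega)
      · exact (d1 k v t).trans (by omega)
  · intro k
    have := a3 k.1
    change Fintype.card ((F₁ k.1).π ⊕ Unit) ≤ K + 1
    rw [Fintype.card_sum, Fintype.card_unit]
    omega
  · intro k
    have := a3 k.1
    have := a4 k.1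
    change Fintype.card ((F₁ k.1).τ ⊕ (F₁ k.1).π) ≤ T + K
    rw [Fintype.card_sum]
    omega
  · intro k
    have := a5 k.1
    have := b5 k.2
    change Fintype.card ((F₁ k.1).σ ⊕ (F₂ k.2).σ) ≤ p₁ + p₂
    rw [Fintype.card_sum]
    omega
  · change ∑ k : κ₁ × κ₂, M ^ (Fintype.card ((F₁ k.1).σ ⊕ (F₂ k.2).σ)) ≤ W₁ * W₂
    rw [Fintype.sum_prod_type]
    calc ∑ x : κ₁, ∑ y : κ₂, M ^ (Fintype.card ((F₁ x).σ ⊕ (F₂ y).σ))
        = (∑ x : κ₁, M ^ Fintype.card (F₁ x).σ) * ∑ y : κ₂, M ^ Fintype.card (F₂ y).σ := by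
          rw [sum_mul]
          refine sum_congr rfl fun x _ => ?_
          rw [mul_sum]
          exact sum_congr rfl fun y _ => by rw [Fintype.card_sum, pow_add]
      _ ≤ W₁ * W₂ := Nat.mul_le_mul a6 b6
  · rintro g ⟨g₁, hg₁, g₂, hg₂, rfl⟩
    obtain ⟨k₁, θ₁, h1⟩ := a7 g₁ hg₁
    obtain ⟨k₂, θ₂, h2⟩ := b7 g₂ hg₂
    refine ⟨(k₁, k₂), Sum.elim θ₁ θ₂, fun v => ?_⟩
    simp only
    rw [h1, h2]
    exact (PFam.bin_val o _ _ _ _ _).symm

end Run7.h413.MX
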