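import Pool.Agent.Run7.h413.MX.Defs
import Pool.Agent.Run7.h413.MX.Cov
import Pool.Agent.N452.TF.Core

set_option autoImplicit false

/-! # Few subfunctions of real formulas with maximum gates -/

namespace Run7.h413.MX

open Finset
open Pool.Agent.N452.TF (Leaf Word ovr ovr_of_mem ovr_of_not)

variable {ι : Type} {D : ι → Type} {w q : ℕ}

namespace Fml

/-- The number of leaves which see a coordinate in `A`. -/
noncomputable def reads (A : Set ι) : Fml ι D w q → ℕ
  | const _ => 0
  | leaf L => L.reads A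
  | add F G => F.reads A + G.reads A
  | mul F G => F.reads A + G.reads A
  | max F G => F.reads A + G.reads A
  | test _ F => F.reads A
  | sym _ _ F => ∑ j, (F j).reads A

theorem sees_iff (A : Set ι) (F : Fml ι D w q) : F.Sees A ↔ F.reads A ≠ 0 := by
  induction F with
  | const c => simp [Sees, reads]
  | leaf L => exact L.sees_iff A
  | add F G ihF ihG =>
    simp only [Sees, reads, ihF, ihG]
    omega
  | mul F G ihF ihG =>
    simp only [Sees, reads, ihF, ihG]
    omega
  | max F G ihF ihG =>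
    simp only [Sees, reads, ihF, ihG]
    omega
  | test h F ih => exact ih
  | sym k h F ih =>
    simp only [Sees, reads, ih, ne_eq, sum_eq_zero_iff, mem_univ, true_imp_iff, not_forall]

theorem eval_ovr (A : Set ι) (F : Fml ι D w q) (h : F.reads A = 0) (a z : ∀ i, D i) :
    F.eval (ovr A a z) = F.eval z := by
  induction F with
  | const c => rfl
  | leaf L =>
    simp only [eval]
    exact L.val_ovr A (fun h9 => (L.sees_iff A).1 h9 h) a z
  | add F G ihF ihG =>
    simp only [reads] at h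
    simp only [eval]
    rw [ihF (by omega), ihG (by omega)]
  | mul F G ihF ihG =>
    simp only [reads] at h
    simp only [eval]
    rw [ihF (by omega), ihG (by omega)]
  | max F G ihF ihG =>
    simp only [reads] at h
    simp only [eval]
    rw [ihF (by omega), ihG (by omega)]
  | test g F ih =>
    simp only [reads] at h
    simp only [eval]
    rw [ih h]
  | sym k H F ih =>
    simp only [reads] at h
    simp only [eval]
    have h1 : ∀ j, (F j).eval (ovr A a z) = (F j).eval z := fun j =>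
      ih j (by
        have := (sum_eq_zero_iff (s := univ) (f := fun j => (F j).reads A)).1 h
        exact this j (mem_univ j))
    simp only [h1]

open Classical in
/-- The prices pay for the readings. -/
theorem sum_reads_le {ζ : Type} (I : Finset ζ) (A : ζ → Set ι) (c : ι → ℕ)
    (hc : ∀ j, (I.filter (fun i => j ∈ A i)).card ≤ c j) (F : Fml ι D w q) :
    ∑ i ∈ I, F.reads (A i) ≤ F.size c := by
  induction F with
  | const c => simp [reads, size]
  | leaf L => exact L.sum_reads_le I A c hc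
  | add F G ihF ihG =>
    simp only [reads, size, sum_add_distrib]
    omega
  | mul F G ihF ihG =>
    simp only [reads, size, sum_add_distrib]
    omega
  | max F G ihF ihG =>
    simp only [reads, size, sum_add_distrib]
    omega
  | test g F ih => exact ih
  | sym k H F ih =>
    simp only [reads, size]
    rw [sum_comm]
    calc ∑ j, ∑ i ∈ I, (F j).reads (A i) ≤ ∑ j, (F j).size c := sum_le_sum fun j _ => ih j
      _ ≤ _ := by omega

theorem reads_le_size (A : Set ι) (c : ι → ℕ) (hc : ∀ j ∈ A, 1 ≤ c j) (F : Fml ι D w q) :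
    F.reads A ≤ F.size c := by
  classical
  have h := sum_reads_le ({()} : Finset Unit) (fun _ => A) c (fun j => by
    by_cases hj : j ∈ A
    · simpa [hj] using hc j hj
    · simp [hj]) F
  simpa using h

/-- The functions of the coordinates in `A`. -/
def Sub {Y : Type} (A : Set ι) (a : Y → ∀ i, D i) (F : Fml ι D w q) : Set (Y → ℝ) :=
  {g | ∃ (z : ∀ i, D i) (u : ℝ → ℝ), Un u ∧ g = fun v => u (F.eval (ovr A (a v) z))}

theorem mem_sub_id {Y : Type} (A : Set ι) (a : Y → ∀ i, D i) (F : Fml ι D w q) (z : ∀ i, D i) :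
    (fun v => F.eval (ovr A (a v) z)) ∈ F.Sub A a := ⟨z, id, Un.id, rfl⟩

/-- The exponent of `M` in the bound for formulas with `r` leaves. -/
def ex (r : ℕ) : ℕ := 11 * r - 6 + 8 * (r * Nat.log 2 r)

theorem ex_one : ex 1 = 5 := by simp [ex]

theorem ex_step {r₁ r₂ : ℕ} (h₂ : 1 ≤ r₂) (h : r₂ ≤ r₁) :
    ex r₁ + ex r₂ + (8 * r₂ - 4) + 5 ≤ ex (r₁ + r₂) := by
  unfold ex
  have e1 : Nat.log 2 r₁ ≤ Nat.log 2 (r₁ + r₂) := Nat.log_mono_right (by omega)
  have e2 : Nat.log 2 r₂ + 1 ≤ Nat.log 2 (r₁ + r₂) := by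
    rw [← Nat.log_mul_base (by norm_num) (by omega)]
    exact Nat.log_mono_right (by omega)
  have e3 : r₁ * Nat.log 2 r₁ ≤ r₁ * Nat.log 2 (r₁ + r₂) := Nat.mul_le_mul_left _ e1
  have e4 : r₂ * (Nat.log 2 r₂ + 1) ≤ r₂ * Nat.log 2 (r₁ + r₂) := Nat.mul_le_mul_left _ e2
  have e5 : (r₁ + r₂) * Nat.log 2 (r₁ + r₂) =
      r₁ * Nat.log 2 (r₁ + r₂) + r₂ * Nat.log 2 (r₁ + r₂) := add_mul _ _ _
  have e6 : r₂ * (Nat.log 2 r₂ + 1) = r₂ * Nat.log 2 r₂ + r₂ := by ring
  omega

theorem ex_sum {κ : Type} (s : Finset κ) (r : κ → ℕ) (R : ℕ) (hR : ∀ j ∈ s, r j ≤ R) :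
    ∑ j ∈ s, (if r j = 0 then 0 else ex (r j)) + 6 * (s.filter (fun j => r j ≠ 0)).card ≤
      11 * ∑ j ∈ s, r j + 8 * ((∑ j ∈ s, r j) * Nat.log 2 R) := by
  rw [card_filter, sum_mul, mul_sum, mul_sum, mul_sum, ← sum_add_distrib, ← sum_add_distrib]
  apply sum_le_sum
  intro j hj
  by_cases h : r j = 0
  · simp [h]
  · rw [if_neg h, if_pos h]
    unfold ex
    have := Nat.mul_le_mul_left (r j) (Nat.log_mono_right (b := 2) (hR j hj))
    omega

open Classical in
/-- gates with two live inputs -/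
theorem node {Y : Type} [Fintype Y] {M V r₁ r₂ : ℕ} {𝒢₁ 𝒢₂ : Set (Y → ℝ)} (o : Op)
    (h₁ : PCov M (2 * r₁ - 1) (3 * r₁) (5 * r₁ ^ 2) (8 * r₁ - 4) (V ^ r₁ * M ^ ex r₁) 𝒢₁)
    (h₂ : PCov M (2 * r₂ - 1) (3 * r₂) (5 * r₂ ^ 2) (8 * r₂ - 4) (V ^ r₂ * M ^ ex r₂) 𝒢₂)
    (hr₂ : 1 ≤ r₂) (h : r₂ ≤ r₁) (hM2 : 2 ≤ M)
    (hM : 4 * (Fintype.card Y * (5 * r₂ ^ 2)) * (2 * r₂ - 1) + 2 ≤ M) :
    PCov M (2 * (r₁ + r₂) - 1) (3 * (r₁ + r₂)) (5 * (r₁ + r₂) ^ 2) (8 * (r₁ + r₂) - 4)
      (V ^ (r₁ + r₂) * M ^ ex (r₁ + r₂))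
      {g | ∃ g₁ ∈ 𝒢₁, ∃ g₂ ∈ 𝒢₂, ∃ u, Un u ∧ g = fun v => u (o.val (g₁ v) (g₂ v))} := by
  refine ((h₁.bin o (h₂.refine hM)).un).mono (by omega) (by omega) ?_ (by omega) ?_ ?_
  · have : 5 * (r₁ + r₂) ^ 2 = 5 * r₁ ^ 2 + 10 * (r₁ * r₂) + 5 * r₂ ^ 2 := by ring
    have h4 : r₁ * 1 ≤ r₁ * r₂ := Nat.mul_le_mul_left _ hr₂
    have h5 : 1 * 1 ≤ r₂ * r₂ := Nat.mul_le_mul hr₂ hr₂
    have h6 : r₂ ^ 2 = r₂ * r₂ := sq r₂
    omega
  · have e := ex_step hr₂ h
    calc 2 * (V ^ r₁ * M ^ ex r₁ * (V ^ r₂ * M ^ ex r₂ * M ^ (8 * r₂ - 4)) * M ^ 4)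
        ≤ M * (V ^ r₁ * M ^ ex r₁ * (V ^ r₂ * M ^ ex r₂ * M ^ (8 * r₂ - 4)) * M ^ 4) :=
          Nat.mul_le_mul_right _ hM2
      _ = V ^ (r₁ + r₂) * M ^ (ex r₁ + ex r₂ + (8 * r₂ - 4) + 5) := by
          rw [pow_add V, pow_add M, pow_add M, pow_add M, pow_succ M 4]
          ring
      _ ≤ _ := Nat.mul_le_mul_left _ (Nat.pow_le_pow_right (by omega) e)
  · rintro g ⟨g₁, hg₁, g₂, hg₂, u, hu, rfl⟩
    exact ⟨_, ⟨g₁, hg₁, g₂, hg₂, rfl⟩, u, hu, rfl⟩

open Classical in
/-- gates with two live inputs, in any order -/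
theorem node' {Y : Type} [Fintype Y] {M V r₁ r₂ : ℕ} {𝒢₁ 𝒢₂ : Set (Y → ℝ)} (o : Op)
    (h₁ : PCov M (2 * r₁ - 1) (3 * r₁) (5 * r₁ ^ 2) (8 * r₁ - 4) (V ^ r₁ * M ^ ex r₁) 𝒢₁)
    (h₂ : PCov M (2 * r₂ - 1) (3 * r₂) (5 * r₂ ^ 2) (8 * r₂ - 4) (V ^ r₂ * M ^ ex r₂) 𝒢₂)
    (hr₁ : 1 ≤ r₁) (hr₂ : 1 ≤ r₂) (hM2 : 2 ≤ M)
    (hM : ∀ r, r ≤ r₁ + r₂ → 4 * (Fintype.card Y * (5 * r ^ 2)) * (2 * r - 1) + 2 ≤ M) :
    PCov M (2 * (r₁ + r₂) - 1) (3 * (r₁ + r₂)) (5 * (r₁ + r₂) ^ 2) (8 * (r₁ + r₂) - 4)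
      (V ^ (r₁ + r₂) * M ^ ex (r₁ + r₂))
      {g | ∃ g₁ ∈ 𝒢₁, ∃ g₂ ∈ 𝒢₂, ∃ u, Un u ∧ g = fun v => u (o.val (g₁ v) (g₂ v))} := by
  rcases le_total r₂ r₁ with h | h
  · exact node o h₁ h₂ hr₂ h hM2 (hM _ (by omega))
  · have h3 := node o h₂ h₁ hr₁ h hM2 (hM _ (by omega))
    rw [add_comm r₂ r₁] at h3
    refine h3.mono le_rfl le_rfl le_rfl le_rfl le_rfl ?_
    rintro g ⟨g₁, hg₁, g₂, hg₂, u, hu, rfl⟩
    refine ⟨g₂, hg₂, g₁, hg₁, u, hu, ?_⟩
    funext v
    rw [o.comm]

open Classical in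
/-- The families of a formula. -/
theorem cov {Y : Type} [Fintype Y] (A : Set ι) (a : Y → ∀ i, D i) (c : ι → ℕ)
    (hc : ∀ j ∈ A, 1 ≤ c j) (s M : ℕ) (hq : 1 ≤ q)
    (hM : ∀ r, r ≤ s → 4 * (Fintype.card Y * (5 * r ^ 2 + 3 * r)) * (2 * r - 1) + 2 + s ≤ M)
    (F : Fml ι D w q) (hs : F.size c ≤ s) (h : 1 ≤ F.reads A) :
    PCov M (2 * F.reads A - 1) (3 * F.reads A) (5 * F.reads A ^ 2) (8 * F.reads A - 4)
      ((q ^ (w - 1)) ^ F.reads A * M ^ ex (F.reads A)) (F.Sub A a) := by
  have hM2 : 2 + s ≤ M := by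
    have := hM 0 (by omega)
    omega
  have hM' : ∀ r, r ≤ s → 4 * (Fintype.card Y * (5 * r ^ 2)) * (2 * r - 1) + 2 ≤ M := by
    intro r hr
    have h1 := hM r hr
    have h2 : 4 * (Fintype.card Y * (5 * r ^ 2)) * (2 * r - 1) ≤
        4 * (Fintype.card Y * (5 * r ^ 2 + 3 * r)) * (2 * r - 1) :=
      Nat.mul_le_mul_right _ (Nat.mul_le_mul_left _ (Nat.mul_le_mul_left _ (by omega)))
    omega
  have hqp : 1 ≤ q ^ (w - 1) := Nat.one_le_pow _ _ hq
  -- the two sorts of nodes with two inputs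
  have two : ∀ (o : Op) (F G : Fml ι D w q),
      (F.size c ≤ s → 1 ≤ F.reads A → PCov M (2 * F.reads A - 1) (3 * F.reads A)
        (5 * F.reads A ^ 2) (8 * F.reads A - 4)
        ((q ^ (w - 1)) ^ F.reads A * M ^ ex (F.reads A)) (F.Sub A a)) →
      (G.size c ≤ s → 1 ≤ G.reads A → PCov M (2 * G.reads A - 1) (3 * G.reads A)
        (5 * G.reads A ^ 2) (8 * G.reads A - 4)
        ((q ^ (w - 1)) ^ G.reads A * M ^ ex (G.reads A)) (G.Sub A a)) →
      (∀ (u : ℝ → ℝ) (x : ℝ), Un u → Un (fun y => u (o.val x y))) →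
      F.size c + G.size c ≤ s → 1 ≤ F.reads A + G.reads A →
      PCov M (2 * (F.reads A + G.reads A) - 1) (3 * (F.reads A + G.reads A))
        (5 * (F.reads A + G.reads A) ^ 2) (8 * (F.reads A + G.reads A) - 4)
        ((q ^ (w - 1)) ^ (F.reads A + G.reads A) * M ^ ex (F.reads A + G.reads A))
        {g | ∃ (z : ∀ i, D i) (u : ℝ → ℝ), Un u ∧
          g = fun v => u (o.val (F.eval (ovr A (a v) z)) (G.eval (ovr A (a v) z)))} := by
    intro o F G hF hG hu hs h
    by_cases hF0 : F.reads A = 0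
    · have h1 := hG (by omega) (by omega)
      rw [hF0, zero_add]
      refine h1.mono le_rfl le_rfl le_rfl le_rfl le_rfl ?_
      rintro g ⟨z, u, hu', rfl⟩
      refine ⟨z, _, hu u (F.eval z) hu', ?_⟩
      funext v
      rw [F.eval_ovr A hF0]
    by_cases hG0 : G.reads A = 0
    · have h1 := hF (by omega) (by omega)
      rw [hG0, add_zero]
      refine h1.mono le_rfl le_rfl le_rfl le_rfl le_rfl ?_
      rintro g ⟨z, u, hu', rfl⟩
      refine ⟨z, _, hu u (G.eval z) hu', ?_⟩
      funext v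
      rw [G.eval_ovr A hG0, o.comm]
    have r1 := F.reads_le_size A c hc
    have r2 := G.reads_le_size A c hc
    refine (node' o (hF (by omega) (by omega)) (hG (by omega) (by omega)) (by omega) (by omega)
      (by omega) (fun r hr => hM' r (by omega))).mono le_rfl le_rfl le_rfl le_rfl le_rfl ?_
    rintro g ⟨z, u, hu', rfl⟩
    exact ⟨_, F.mem_sub_id A a z, _, G.mem_sub_id A a z, u, hu', rfl⟩
  have bnd : ∀ W V : ℕ, W ≤ V → 2 * (W * M ^ 4) ≤ V * M ^ 5 := by
    intro W V hWV
    calc 2 * (W * M ^ 4) ≤ M * (V * M ^ 4) :=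
          Nat.mul_le_mul (by omega) (Nat.mul_le_mul_right _ hWV)
      _ = V * M ^ 5 := by ring
  induction F with
  | const c => simp [reads] at h
  | leaf L =>
    have hL : L.Sees A := (L.sees_iff A).2 (by
      simp only [reads] at h
      omega)
    obtain ⟨κ, _, f, hκ, hf⟩ := L.family hq A a hL
    have h1 := (pcov_of_finite (M := M) f).un
    have hr : (leaf L : Fml ι D w q).reads A = 1 := L.reads_pos hL
    rw [hr]
    refine h1.mono (by norm_num) (by norm_num) (by norm_num) (by norm_num) ?_ ?_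
    · rw [ex_one, pow_one]
      exact bnd _ _ hκ
    · rintro g ⟨z, u, hu, rfl⟩
      obtain ⟨k, hk⟩ := hf z
      refine ⟨_, ⟨k, rfl⟩, u, hu, ?_⟩
      rw [← hk]
      rfl
  | add F G ihF ihG =>
    simp only [size] at hs
    simp only [reads] at h ⊢
    refine two .add F G ihF ihG (fun u x hu => ?_) hs h
    have := hu.comp 1 x
    refine (congrArg Un ?_).mp this
    funext y
    simp only [Op.val]
    congr 1
    ring
  | mul F G ihF ihG =>
    simp only [size] at hs
    simp only [reads] at h ⊢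
    refine two .mul F G ihF ihG (fun u x hu => ?_) hs h
    have := hu.comp x 0
    refine (congrArg Un ?_).mp this
    funext y
    simp only [Op.val]
    congr 1
    ring
  | max F G ihF ihG =>
    simp only [size] at hs
    simp only [reads] at h ⊢
    exact two .max F G ihF ihG (fun u x hu => hu.comp_max x) hs h
  | test g F ih =>
    simp only [size] at hs
    simp only [reads] at h ⊢
    refine (ih hs h).mono le_rfl le_rfl le_rfl le_rfl le_rfl ?_
    rintro g' ⟨z, u, hu, rfl⟩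
    exact ⟨z, _, Un.bool (fun b => u (g b)), rfl⟩
  | sym k H F ih =>
    simp only [size] at hs
    simp only [reads] at h ⊢
    have hsj : ∀ j, (F j).size c ≤ ∑ j, (F j).size c := fun j =>
      single_le_sum (f := fun j => (F j).size c) (fun _ _ => Nat.zero_le _) (mem_univ j)
    have hrj : ∀ j, (F j).reads A ≤ ∑ j, (F j).reads A := fun j =>
      single_le_sum (f := fun j => (F j).reads A) (fun _ _ => Nat.zero_le _) (mem_univ j)
    have hrs : ∑ j, (F j).reads A ≤ ∑ j, (F j).size c :=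
      sum_le_sum fun j _ => (F j).reads_le_size A c hc
    by_cases hA : ∃ j0, ∀ j, j ≠ j0 → (F j).reads A = 0
    · -- one live child
      obtain ⟨j0, hj0⟩ := hA
      have e : ∑ j, (F j).reads A = (F j0).reads A :=
        sum_eq_single j0 (fun j _ hj => hj0 j hj) (fun hj => absurd (mem_univ _) hj)
      rw [e] at h ⊢
      refine (ih j0 (by have := hsj j0; omega) h).mono le_rfl le_rfl le_rfl le_rfl le_rfl ?_
      rintro g ⟨z, u, hu, rfl⟩
      refine ⟨z, _, Un.bool (fun b => u (H ((univ.filter (fun j => j ≠ j0 ∧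
        0 < (F j).eval z)).card + if b then 1 else 0))), ?_⟩
      funext v
      simp only [eval, decide_eq_true_eq]
      congr 2
      have e2 : univ.filter (fun j => 0 < (F j).eval (ovr A (a v) z)) =
          univ.filter (fun j => j ≠ j0 ∧ 0 < (F j).eval z) ∪
          (if 0 < (F j0).eval (ovr A (a v) z) then {j0} else ∅) := by
        ext j
        rw [mem_filter, mem_union, mem_filter]
        by_cases hj : j = j0
        · subst hj
          split_ifs with h5 <;> simp [h5]
        · rw [(F j).eval_ovr A (hj0 j hj)]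
          split_ifs <;> simp [hj]
      rw [e2, card_union_of_disjoint]
      · congr 1
        split_ifs <;> simp
      · split_ifs
        · rw [disjoint_singleton_right]
          simp
        · simp
    · push Not at hA
      -- the Boolean functions of the children
      have hS : ∀ j, ∃ S : Finset (Y → Bool), S.card ≤ (q ^ (w - 1)) ^ (F j).reads A *
          M ^ (if (F j).reads A = 0 then 0 else ex ((F j).reads A)) ∧
          ∀ z, (fun v => decide ((F j).reads A ≠ 0 ∧
            0 < (F j).eval (ovr A (a v) z))) ∈ S := by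
        intro j
        by_cases hj : (F j).reads A = 0
        · refine ⟨{fun _ => false}, ?_, fun z => ?_⟩
          · rw [card_singleton, if_pos hj, pow_zero, mul_one]
            exact Nat.one_le_pow _ _ hqp
          · rw [mem_singleton]
            funext v
            simp [hj]
        · have := hsj j
          have := hrj j
          rw [if_neg hj]
          obtain ⟨S, hS1, hS2⟩ := (ih j (by omega) (by omega)).bool (by
            have h9 := hM ((F j).reads A) (by omega)
            omega)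
          refine ⟨S, hS1, fun z => ?_⟩
          have h9 := hS2 _ ((F j).mem_sub_id A a z)
          have e : (fun v => decide ((F j).reads A ≠ 0 ∧
              0 < (F j).eval (ovr A (a v) z))) =
              fun v => decide (0 < (F j).eval (ovr A (a v) z)) := by
            funext v
            rw [Bool.eq_iff_iff, decide_eq_true_iff, decide_eq_true_iff]
            simp [hj]
          rw [e]
          exact h9
      choose S hS1 hS2 using hS
      obtain ⟨f, hf⟩ : ∃ f : (Fin (k + 1) × ((j : Fin k) → {x : Y → Bool // x ∈ S j})) → Y →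
          ℝ, ∀ (c : Fin (k + 1) × ((j : Fin k) → {x : Y → Bool // x ∈ S j})) (v : Y),
            f c v = H (c.1.val + (univ.filter (fun j : Fin k => (c.2 j).1 v = true)).card) :=
        ⟨fun c v => H (c.1.val + (univ.filter (fun j : Fin k => (c.2 j).1 v = true)).card),
          fun _ _ => rfl⟩
      have h1 := (pcov_of_finite (M := M) f).un
      have hcard : 2 ≤ (univ.filter (fun j => (F j).reads A ≠ 0)).card := by
        obtain ⟨j1, hj1⟩ : ∃ j1, (F j1).reads A ≠ 0 := by
          by_contra hc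
          push Not at hc
          simp [hc] at h
        obtain ⟨j2, hj2, hj3⟩ := hA j1
        have : ({j1, j2} : Finset (Fin k)) ⊆ univ.filter (fun j => (F j).reads A ≠ 0) := by
          intro j hj
          rw [mem_insert, mem_singleton] at hj
          rw [mem_filter]
          rcases hj with rfl | rfl
          · exact ⟨mem_univ _, hj1⟩
          · exact ⟨mem_univ _, hj3⟩
        have h3 := card_le_card this
        rwa [card_pair hj2.symm] at h3
      have hsum := ex_sum univ (fun j => (F j).reads A) (∑ j, (F j).reads A) (fun j _ => hrj j)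
      have hex : ∑ j, (if (F j).reads A = 0 then 0 else ex ((F j).reads A)) + 6 ≤
          ex (∑ j, (F j).reads A) := by
        have h7 : ex (∑ j, (F j).reads A) = 11 * (∑ j, (F j).reads A) - 6 +
          8 * ((∑ j, (F j).reads A) * Nat.log 2 (∑ j, (F j).reads A)) := rfl
        rw [h7]
        omega
      have h2r : 1 ≤ ∑ j, (F j).reads A := h
      refine h1.mono (by omega) (by omega) ?_ (by omega) ?_ ?_
      · have : 1 ^ 2 ≤ (∑ j, (F j).reads A) ^ 2 := Nat.pow_le_pow_left h2r 2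
        omega
      · rw [Fintype.card_prod, Fintype.card_fin, Fintype.card_pi]
        simp only [Fintype.card_coe]
        calc 2 * ((k + 1) * (∏ j, (S j).card) * M ^ 4)
            ≤ M * (M * (∏ j, ((q ^ (w - 1)) ^ (F j).reads A *
                M ^ (if (F j).reads A = 0 then 0 else ex ((F j).reads A)))) * M ^ 4) := by
              apply Nat.mul_le_mul (by omega)
              apply Nat.mul_le_mul_right
              exact Nat.mul_le_mul (by omega) (prod_le_prod' fun j _ => hS1 j)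
          _ = (q ^ (w - 1)) ^ (∑ j, (F j).reads A) *
                M ^ (∑ j, (if (F j).reads A = 0 then 0 else ex ((F j).reads A)) + 6) := by
              rw [prod_mul_distrib, prod_pow_eq_pow_sum, prod_pow_eq_pow_sum, pow_add M _ 6]
              ring
          _ ≤ _ := Nat.mul_le_mul_left _ (Nat.pow_le_pow_right (by omega) hex)
      · rintro g ⟨z, u, hu, rfl⟩
        refine ⟨fun v => (sym k H F).eval (ovr A (a v) z), ?_, u, hu, rfl⟩
        refine ⟨(⟨(univ.filter (fun j => (F j).reads A = 0 ∧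
          0 < (F j).eval z)).card, ?_⟩, fun j => ⟨_, hS2 j z⟩), ?_⟩
        · have := card_filter_le (univ : Finset (Fin k))
            (fun j => (F j).reads A = 0 ∧ 0 < (F j).eval z)
          rw [card_univ, Fintype.card_fin] at this
          omega
        · funext v
          rw [hf]
          simp only [eval, decide_eq_true_eq]
          congr 1
          have e2 : univ.filter (fun j => 0 < (F j).eval (ovr A (a v) z)) =
              univ.filter (fun j => (F j).reads A = 0 ∧ 0 < (F j).eval z) ∪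
              univ.filter (fun j => (F j).reads A ≠ 0 ∧
                0 < (F j).eval (ovr A (a v) z)) := by
            ext j
            rw [mem_filter, mem_union, mem_filter, mem_filter]
            by_cases hj : (F j).reads A = 0
            · rw [(F j).eval_ovr A hj]
              simp [hj]
            · simp [hj]
          rw [e2, card_union_of_disjoint]
          rw [disjoint_filter]
          rintro j - ⟨h5, -⟩ ⟨h6, -⟩
          exact h6 h5

/-- The arithmetic of the condition for `M`. -/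
theorem cond {y s M r : ℕ} (hM : 64 * y * s ^ 3 + 2 + s ≤ M) (hr : r ≤ s) :
    4 * (y * (5 * r ^ 2 + 3 * r)) * (2 * r - 1) + 2 + s ≤ M := by
  have h0 : r ≤ r ^ 2 := Nat.le_self_pow (by norm_num) r
  have h1 : 5 * r ^ 2 + 3 * r ≤ 8 * r ^ 2 := by omega
  have h2 : 4 * (y * (5 * r ^ 2 + 3 * r)) * (2 * r - 1) ≤ 4 * (y * (8 * r ^ 2)) * (2 * r) :=
    Nat.mul_le_mul (Nat.mul_le_mul_left _ (Nat.mul_le_mul_left _ h1)) (by omega)
  have h3 : 4 * (y * (8 * r ^ 2)) * (2 * r) = 64 * y * r ^ 3 := by ring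
  have h4 : 64 * y * r ^ 3 ≤ 64 * y * s ^ 3 := Nat.mul_le_mul_left _ (Nat.pow_le_pow_left hr 3)
  omega

open Classical in
/-- Few subfunctions. -/
theorem subfunctions {Y : Type} [Fintype Y] (A : Set ι) (a : Y → ∀ i, D i) (c : ι → ℕ)
    (hc : ∀ j ∈ A, 1 ≤ c j) (s M B : ℕ) (hq : 1 ≤ q)
    (hM : 64 * Fintype.card Y * s ^ 3 + 2 + s ≤ M)
    (hB : B = M ^ (6 + 4 * Nat.log 2 s) * q ^ (w - 1)) (F : Fml ι D w q)
    (hs : F.size c ≤ s) :
    ∃ S : Finset (Y → Bool), S.card ≤ 2 * B ^ (2 * F.reads A) ∧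
      ∀ z : (∀ i, D i), (fun v => F.accepts (ovr A (a v) z)) ∈ S := by
  by_cases h : F.reads A = 0
  · refine ⟨(univ : Finset Bool).image (fun c => fun _ => c), ?_, fun z => ?_⟩
    · refine card_image_le.trans ?_
      simp [h]
    · rw [mem_image]
      refine ⟨F.accepts z, mem_univ _, ?_⟩
      funext v
      unfold accepts
      rw [F.eval_ovr A h]
  · have hr := F.reads_le_size A c hc
    have hqp : 1 ≤ q ^ (w - 1) := Nat.one_le_pow _ _ hq
    obtain ⟨S, h1, h2⟩ := (F.cov A a c hc s M hq (fun r hr => cond hM hr) hs (by omega)).bool (by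
      have := cond (y := Fintype.card Y) hM (r := F.reads A) (by omega)
      omega)
    refine ⟨S, h1.trans ?_, fun z => ?_⟩
    · obtain ⟨r, hr'⟩ : ∃ r, r = F.reads A := ⟨_, rfl⟩
      rw [← hr'] at h hr ⊢
      have e1 : ex r ≤ (6 + 4 * Nat.log 2 s) * (2 * r) := by
        unfold ex
        have h3 : r * Nat.log 2 r ≤ r * Nat.log 2 s :=
          Nat.mul_le_mul_left _ (Nat.log_mono_right (by omega))
        have h4 : (6 + 4 * Nat.log 2 s) * (2 * r) = 12 * r + 8 * (r * Nat.log 2 s) := by ring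
        omega
      have e2 : (q ^ (w - 1)) ^ r ≤ (q ^ (w - 1)) ^ (2 * r) :=
        Nat.pow_le_pow_right hqp (by omega)
      rw [hB, mul_pow, ← pow_mul M]
      calc (q ^ (w - 1)) ^ r * M ^ ex r
          ≤ (q ^ (w - 1)) ^ (2 * r) * M ^ ((6 + 4 * Nat.log 2 s) * (2 * r)) :=
            Nat.mul_le_mul e2 (Nat.pow_le_pow_right (by omega) e1)
        _ = M ^ ((6 + 4 * Nat.log 2 s) * (2 * r)) * (q ^ (w - 1)) ^ (2 * r) := mul_comm _ _
        _ ≤ 2 * (M ^ ((6 + 4 * Nat.log 2 s) * (2 * r)) * (q ^ (w - 1)) ^ (2 * r)) := by omega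
    · exact h2 _ (F.mem_sub_id A a z)

end Fml

end Run7.h413.MX
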