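import Pool.Agent.N452.TF.Defs

set_option autoImplicit false

/-! # Real formulas with maximum gates, branching programs which test them, and circuits of shared
bits

The wires of a formula carry real numbers (of unlimited precision). The gates are sums, products,
maxima, sign tests and symmetric gates of any fan-in. Minima, absolute bounds and rectified linear
units are obtained by means of constants, which are free: `min x y = - max (- x) (- y)`. -/

namespace Run7.h413.MX

open Finset
open Pool.Agent.N452.TF (Leaf Ext ext)

/-- Formulas with real values: constants, leaves (arbitrary real functions of one coordinate of the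
input, or of `w` words with `q` values, each of which is an arbitrary function of one coordinate),
sums, products, maxima, tests whether a value is positive with two arbitrary results, and gates
`sym` of any fan-in `k` whose value is an arbitrary function of the number of positive inputs. -/
inductive Fml (ι : Type) (D : ι → Type) (w q : ℕ) : Type
  | const : ℝ → Fml ι D w q
  | leaf : Leaf ι D w q ℝ → Fml ι D w q
  | add : Fml ι D w q → Fml ι D w q → Fml ι D w q
  | mul : Fml ι D w q → Fml ι D w q → Fml ι D w q
  | max : Fml ι D w q → Fml ι D w q → Fml ι D w q
  | test : (Bool → ℝ) → Fml ι D w q → Fml ι D w q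
  | sym : (k : ℕ) → (ℕ → ℝ) → (Fin k → Fml ι D w q) → Fml ι D w q

namespace Fml

variable {ι : Type} {D : ι → Type} {w q : ℕ}

/-- The value of the formula. -/
noncomputable def eval : Fml ι D w q → (∀ i, D i) → ℝ
  | const c, _ => c
  | leaf L, x => L.val x
  | add F G, x => F.eval x + G.eval x
  | mul F G, x => F.eval x * G.eval x
  | max F G, x => Max.max (F.eval x) (G.eval x)
  | test h F, x => h (decide (0 < F.eval x))
  | sym _ h F, x => h (univ.filter (fun i => 0 < (F i).eval x)).card

/-- The size, if a reading of the coordinate `i` costs `c i`: the prices of the leaves, and the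
wires which lead to gates `sym`. All other gates and the constants are free. -/
def size (c : ι → ℕ) : Fml ι D w q → ℕ
  | const _ => 0
  | leaf L => L.size c
  | add F G => F.size c + G.size c
  | mul F G => F.size c + G.size c
  | max F G => F.size c + G.size c
  | test _ F => F.size c
  | sym k _ F => k + ∑ j, (F j).size c

/-- Does some leaf see a coordinate in the set `A`? -/
def Sees (A : Set ι) : Fml ι D w q → Prop
  | const _ => False
  | leaf L => L.Sees A
  | add F G => F.Sees A ∨ G.Sees A
  | mul F G => F.Sees A ∨ G.Sees A
  | max F G => F.Sees A ∨ G.Sees A
  | test _ F => F.Sees A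
  | sym _ _ F => ∃ j, (F j).Sees A

/-- The formula accepts the input if its value is positive. -/
noncomputable def accepts (F : Fml ι D w q) (x : ∀ i, D i) : Bool :=
  decide (0 < F.eval x)

end Fml

/-- Branching programs with `n` inner nodes. The nodes are numbered: `0` and `1` are the two sinks,
`2, 3, …, n + 1` are the inner nodes. An inner node is labelled with a formula, and its two
successors are nodes with smaller numbers. -/
inductive BP (ι : Type) (D : ι → Type) (w q : ℕ) : ℕ → Type
  | sinks : BP ι D w q 0
  | node : {n : ℕ} → BP ι D w q n → Fml ι D w q → (no yes : Fin (n + 2)) →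
      BP ι D w q (n + 1)

namespace BP

variable {ι : Type} {D : ι → Type} {w q : ℕ}

/-- The value of the sink which is reached from a node (`0` rejects, `1` accepts). An inner node
leads to its successor `yes` if its formula accepts the input. -/
noncomputable def val : {n : ℕ} → BP ι D w q n → (∀ i, D i) → Fin (n + 2) → Bool
  | _, sinks, _, v => decide (v = 1)
  | _, node B F no yes, x, v =>
      Fin.lastCases (motive := fun _ => Bool) (if F.accepts x then B.val x yes else B.val x no)
        (fun u => B.val x u) v

/-- The size: the number of the inner nodes plus the sizes of all formulas. -/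
def size (c : ι → ℕ) : {n : ℕ} → BP ι D w q n → ℕ
  | _, sinks => 0
  | _, node B F _ _ => B.size c + (F.size c + 1)

/-- Does some leaf see a coordinate in the set `A`? -/
def Sees (A : Set ι) : {n : ℕ} → BP ι D w q n → Prop
  | _, sinks => False
  | _, node B F _ _ => B.Sees A ∨ F.Sees A

end BP

/-- A branching program with a start node. -/
structure Program (ι : Type) (D : ι → Type) (w q : ℕ) where
  /-- number of inner nodes -/
  nodes : ℕ
  /-- the program -/
  bp : BP ι D w q nodes
  /-- the start node -/
  start : Fin (nodes + 2)

/-- The result of the computation. -/
noncomputable def Program.eval {ι : Type} {D : ι → Type} {w q : ℕ} (B : Program ι D w q)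
    (x : ∀ i, D i) : Bool :=
  B.bp.val x B.start

/-- Circuits with `m` shared bits: every bit is computed by a branching program from the items and
the bits before it. -/
inductive Circ (ι : Type) (D : ι → Type) (w q : ℕ) : ℕ → Type
  | nil : Circ ι D w q 0
  | snoc : {m : ℕ} → Circ ι D w q m → Program (ι ⊕ Fin m) (Ext D m) w q →
      Circ ι D w q (m + 1)

namespace Circ

variable {ι : Type} {D : ι → Type} {w q : ℕ}

/-- The values of the bits. -/
noncomputable def val : {m : ℕ} → Circ ι D w q m → (∀ i, D i) → Fin m → Bool
  | _, nil, _ => fun j => j.elim0
  | _, snoc C P, x => Fin.lastCases (motive := fun _ => Bool) (P.eval (ext x (C.val x)))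
      (fun j => C.val x j)

/-- The items and bits which depend on the item `i`: the item itself, and the bits whose programs
see the item or an earlier bit which depends on it. -/
def Dep (i : ι) : {m : ℕ} → Circ ι D w q m → Set (ι ⊕ Fin m)
  | _, nil => {Sum.inl i}
  | _, snoc (m := m) C P => fun a => a = Sum.inl i ∨
      (∃ j : Fin m, a = Sum.inr j.castSucc ∧ Sum.inr j ∈ Dep i C) ∨
      (a = Sum.inr (Fin.last m) ∧ P.bp.Sees (Dep i C))

open Classical in
/-- The price of an item or a bit: the number of the items in `I` on which it depends. -/
noncomputable def price (I : Finset ι) {m : ℕ} (C : Circ ι D w q m) (a : ι ⊕ Fin m) : ℕ :=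
  (I.filter (fun i => a ∈ C.Dep i)).card

/-- The cost: the inner nodes of all programs, the wires which lead to gates `sym`, and the
prices of all items and bits which are seen by the leaves. -/
noncomputable def cost (I : Finset ι) : {m : ℕ} → Circ ι D w q m → ℕ
  | _, nil => 0
  | _, snoc C P => C.cost I + P.bp.size (C.price I)

end Circ

/-- A circuit whose last bit is the output. -/
structure Circuit (ι : Type) (D : ι → Type) (w q : ℕ) where
  /-- number of shared bits before the output -/
  bits : ℕ
  /-- the circuit -/
  circ : Circ ι D w q (bits + 1)

/-- The output of the circuit. -/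
noncomputable def Circuit.eval {ι : Type} {D : ι → Type} {w q : ℕ} (C : Circuit ι D w q)
    (x : ∀ i, D i) : Bool :=
  C.circ.val x (Fin.last _)

end Run7.h413.MX
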